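import Pool.Agent.Q56.LN.Chen
import Pool.Agent.H373R2.T7.Fund

/-!
# Almost prime values on the line `x + y = n`, arbitrary families
-/

set_option autoImplicit false

namespace Pool.Agent.Q56.LN

open Finset Filter
open Pool.Agent.Y843.HS (Pr VV Pr_mem Pr_prime VV_split)
open Pool.Agent.Y843.HG (Z0 V1 V1_bounds V1_pos fac1 log_floor)
open Pool.Agent.H373R2.T7 (PerB nuB pz sys_fund mem_pz)

/-- the product over the primes of `(y, n]`, from below -/
theorem VV_ge' (r : ℕ) {y n : ℕ} (hy : 2 * r + 1 ≤ y) (hyn : y ≤ n) {Z : ℕ → Finset ℕ}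
    (hZ : ∀ q : ℕ, q.Prime → (Z q).card ≤ r) : (V1 n / V1 y) ^ (2 * r) ≤ VV Z y n := by
  have h1 : V1 n / V1 y = ∏ p ∈ Pr y n, (1 - 1 / (p : ℝ)) := by
    rw [div_eq_iff (V1_pos y).ne']
    have h2 := VV_split (fun _ => ({0} : Finset ℕ)) (Nat.zero_le y) hyn
    unfold VV at h2
    simp only [card_singleton, Nat.cast_one] at h2
    unfold V1
    rw [← h2, mul_comm]
  rw [h1, ← prod_pow]
  unfold VV
  apply Finset.prod_le_prod
  · intro p hp
    have := (fac1 (Pr_prime hp)).1
    exact pow_nonneg (by linarith) _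
  · intro p hp
    obtain ⟨⟨p1, p2⟩, p3⟩ := Pr_mem.1 hp
    have hp0 : (0 : ℝ) < p := by exact_mod_cast p3.pos
    have hrp : (2 * r + 1 : ℝ) ≤ p := by exact_mod_cast (show 2 * r + 1 ≤ p by omega)
    have h2 : 1 - 1 / (p : ℝ) ≤ Real.exp (-(1 / (p : ℝ))) := by
      have := Real.add_one_le_exp (-(1 / (p : ℝ)))
      linarith
    have h3 : (0 : ℝ) ≤ 1 - 1 / (p : ℝ) := by
      have := (fac1 p3).1
      linarith
    calc (1 - 1 / (p : ℝ)) ^ (2 * r) ≤ Real.exp (-(1 / (p : ℝ))) ^ (2 * r) := pow_le_pow_left₀ h3 h2 _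
      _ = Real.exp (-(2 * (r / p : ℝ))) := by
          rw [← Real.exp_nat_mul]
          congr 1
          push_cast
          ring
      _ ≤ 1 - (r / p : ℝ) := by
          apply one_sub_ge (by positivity)
          rw [div_le_div_iff₀ hp0 (by norm_num)]
          linarith
      _ ≤ 1 - ((Z p).card : ℝ) / p := by
          have h4 : ((Z p).card : ℝ) / p ≤ r / p :=
            div_le_div_of_nonneg_right (by exact_mod_cast hZ p p3) hp0.le
          linarith

theorem prodpz_eq {m : ℕ} (f : Fin m → MvPolynomial (Fin 2) ℤ) (n y : ℕ) :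
    ∏ p ∈ pz y, (1 - (nuB (fun p r => (p : ℤ) ∣ (PP f n).eval (r : ℤ)) p : ℝ) / p) =
      VV (Zc (PP f n) 1 0) 0 y := by
  classical
  unfold VV
  apply prod_congr
  · ext q
    rw [mem_pz, Pr_mem]
    constructor
    · rintro ⟨a, b⟩
      exact ⟨⟨b.pos, a⟩, b⟩
    · rintro ⟨⟨a, b⟩, c⟩
      exact ⟨b, c⟩
  · intro q hq
    have h1 : nuB (fun p r => (p : ℤ) ∣ (PP f n).eval (r : ℤ)) q = (Zc (PP f n) 1 0 q).card := by
      unfold nuB Zc
      congr 1
      ext r
      simp only [mem_filter, one_mul, add_zero]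
    rw [h1]

/-- few `x` with small values -/
theorem few_small {m : ℕ} (f : Fin m → MvPolynomial (Fin 2) ℤ) (n y : ℕ)
    (h : ∀ k, ∀ z : ℤ, sub1 1 0 n (f k) ≠ Polynomial.C z) (S : Finset ℕ) :
    (S.filter (fun x : ℕ => ∃ k, ((sub1 1 0 n (f k)).eval (x : ℤ)).natAbs ≤ y)).card ≤ (2 * y + 1) * DD f := by
  classical
  have h1 : S.filter (fun x : ℕ => ∃ k, ((sub1 1 0 n (f k)).eval (x : ℤ)).natAbs ≤ y) ⊆
      univ.biUnion (fun k => (Icc (-(y : ℤ)) y).biUnion (fun z =>
        S.filter (fun x : ℕ => (sub1 1 0 n (f k)).eval (x : ℤ) = z))) := by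
    intro x hx
    rw [mem_filter] at hx
    obtain ⟨hx, k, hk⟩ := hx
    rw [mem_biUnion]
    refine ⟨k, mem_univ _, ?_⟩
    rw [mem_biUnion]
    refine ⟨(sub1 1 0 n (f k)).eval (x : ℤ), ?_, mem_filter.2 ⟨hx, rfl⟩⟩
    rw [mem_Icc]
    omega
  refine (card_le_card h1).trans (card_biUnion_le.trans ?_)
  unfold DD
  rw [mul_sum]
  apply Finset.sum_le_sum
  intro k _
  refine card_biUnion_le.trans ?_
  have h2 : ∀ z ∈ Icc (-(y : ℤ)) y, (S.filter (fun x : ℕ => (sub1 1 0 n (f k)).eval (x : ℤ) = z)).card ≤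
      (f k).totalDegree := by
    intro z _
    have hne : sub1 1 0 n (f k) - Polynomial.C z ≠ 0 := sub_ne_zero.2 (h k z)
    calc (S.filter (fun x : ℕ => (sub1 1 0 n (f k)).eval (x : ℤ) = z)).card
        ≤ (sub1 1 0 n (f k) - Polynomial.C z).roots.toFinset.card := by
          apply card_le_card_of_injOn (fun x : ℕ => (x : ℤ))
          · intro x hx
            rw [mem_coe, mem_filter] at hx
            rw [mem_coe, Multiset.mem_toFinset, Polynomial.mem_roots hne, Polynomial.IsRoot, Polynomial.eval_sub,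
              Polynomial.eval_C, hx.2, sub_self]
          · exact Nat.cast_injective.injOn
      _ ≤ Multiset.card (sub1 1 0 n (f k) - Polynomial.C z).roots := Multiset.toFinset_card_le _
      _ ≤ (sub1 1 0 n (f k) - Polynomial.C z).natDegree := Polynomial.card_roots' _
      _ = (sub1 1 0 n (f k)).natDegree := Polynomial.natDegree_sub_C
      _ ≤ _ := sub1_deg _ _ _ _
  refine (Finset.sum_le_sum h2).trans ?_
  rw [sum_const, Int.card_Icc, smul_eq_mul]
  apply Nat.mul_le_mul_right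
  omega

theorem alm_main {m : ℕ} (f : Fin m → MvPolynomial (Fin 2) ℤ) (hnc : ∀ k z, f k ≠ MvPolynomial.C z) :
    ∃ (R n₀ : ℕ) (δ κ C : ℝ), 0 < δ ∧ 0 < κ ∧ 0 < C ∧ ∀ n : ℕ, n₀ ≤ n → NoFixed f n →
      (∃ S : Finset ℕ, κ * (n * Vn f n) ≤ (S.card : ℝ) ∧ ∀ x ∈ S, 0 < x ∧ x < n ∧
        ∀ k, AP R ((n : ℝ) ^ δ) (ev (f k) x (n - x))) ∧
      (1 ≤ m → (((Ioo 0 n).filter (fun x : ℕ => ∀ k, (ev (f k) x (n - x)).natAbs.Prime)).card : ℝ) ≤
        C * (n * Vn f n)) := by
  classical
  obtain ⟨t, x0, ht, hfund⟩ := sys_fund (DD f + 1) (by omega) (1 / 2) (by norm_num)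
  obtain ⟨t', ht'⟩ : ∃ t', t' = 2 * t := ⟨_, rfl⟩
  have ht'1 : 1 ≤ t' := by omega
  have ht0 : (0 : ℝ) < t' := by exact_mod_cast ht'1
  obtain ⟨C, d, hsz⟩ := size_fam f
  obtain ⟨n1, hn1⟩ := non_unit f hnc
  obtain ⟨cV, hcV, hVlow⟩ := Vn_low f
  obtain ⟨c1, C1, hc1, hC1, hVb⟩ := V1_bounds
  obtain ⟨n3, hn3⟩ := log_floor t' ht'1
  set K := Real.exp (-(2 * (DD f : ℕ) * (1 : ℕ) : ℝ)) with hK
  have hK0 : 0 < K := Real.exp_pos _
  obtain ⟨L, hL⟩ : ∃ L : ℝ, L = (c1 / (C1 * (2 * t'))) ^ (2 * DD f) := ⟨_, rfl⟩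
  have hL0 : 0 < L := by rw [hL]; positivity
  obtain ⟨E, hE⟩ : ∃ E : ℝ, E = 32 * (DD f + 1) * (1 + K) / (K * cV) := ⟨_, rfl⟩
  have hE0 : 0 < E := by rw [hE]; positivity
  have e1 : ∀ᶠ n : ℕ in atTop, (2 * DD f + x0 + 3 : ℝ) ≤ (n : ℝ) ^ (1 / (t' : ℝ)) :=
    ((tendsto_rpow_atTop (show (0 : ℝ) < 1 / t' by positivity)).comp tendsto_natCast_atTop_atTop).eventually
      (eventually_ge_atTop _)
  have e3 := log_small (2 * (2 * DD f)) (E ^ 2) (by positivity)
  obtain ⟨n2, hn2⟩ := eventually_atTop.1 (e1.and e3)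
  refine ⟨t' * (d + 1), n1 + n2 + n3 + C + 2 * DD f + 4, 1 / (t' : ℝ), K / 8, 3 / (2 * L) + 3,
    by positivity, by positivity, by positivity, ?_⟩
  intro n hn hf
  obtain ⟨g2, g3⟩ := hn2 n (by omega)
  have hn4 : 4 ≤ n := by omega
  have hnr : (4 : ℝ) ≤ n := by exact_mod_cast hn4
  have hn0 : (0 : ℝ) < n := by linarith
  have hlog : 0 < Real.log n := Real.log_pos (by linarith)
  obtain ⟨w, hw⟩ : ∃ w : ℝ, w = (n : ℝ) ^ (1 / (t' : ℝ)) := ⟨_, rfl⟩
  obtain ⟨hy2, hlogy⟩ := hn3 n (by omega)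
  rw [← hw] at g2 hy2 hlogy ⊢
  obtain ⟨y, hy⟩ : ∃ y : ℕ, y = ⌊w⌋₊ := ⟨_, rfl⟩
  rw [← hy] at hy2 hlogy
  have hw0 : 0 ≤ w := by rw [hw]; positivity
  have hyw : (y : ℝ) ≤ w := by rw [hy]; exact Nat.floor_le hw0
  have hD0 : (0 : ℝ) ≤ DD f := Nat.cast_nonneg _
  have hx00 : (0 : ℝ) ≤ x0 := Nat.cast_nonneg _
  have hy3 : 2 * DD f + x0 + 3 ≤ y := by
    rw [hy]
    apply Nat.le_floor
    push_cast
    linarith
  have hwt : w ^ t' = n := by
    rw [hw, ← Real.rpow_natCast, ← Real.rpow_mul hn0.le, one_div, inv_mul_cancel₀ ht0.ne', Real.rpow_one]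
  have hw1 : 1 ≤ w := by linarith
  have hyt : y ^ t ≤ n := by
    have h1 : ((y : ℝ)) ^ t' ≤ n := by rw [← hwt]; exact pow_le_pow_left₀ (Nat.cast_nonneg _) hyw _
    have h2 : y ^ t' ≤ n := by exact_mod_cast h1
    refine le_trans (Nat.pow_le_pow_right (by omega) (by omega)) h2
  have hy2n : (y : ℝ) ≤ Real.sqrt n := by
    apply Real.le_sqrt_of_sq_le
    calc (y : ℝ) ^ 2 ≤ w ^ 2 := pow_le_pow_left₀ (Nat.cast_nonneg _) hyw _
      _ ≤ w ^ t' := pow_le_pow_right₀ hw1 (by omega)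
      _ = n := hwt
  have hyn : y ≤ n := by
    have h1 : y ^ 1 ≤ y ^ t := Nat.pow_le_pow_right (by omega) ht
    rw [pow_one] at h1
    omega
  -- the fundamental lemma
  set Q : ℕ → ℕ → Prop := fun p r => (p : ℤ) ∣ (PP f n).eval (r : ℤ) with hQ
  have hnuB : ∀ q : ℕ, nuB Q q = nu f n q := by
    intro q
    unfold nuB nu
    congr 1
    ext r
    simp only [mem_filter, hQ, ← PP_eval]
  have hper : PerB Q (DD f + 1) := by
    constructor
    · intro p r
      rw [hQ]
      have h1 : ((r % p : ℕ) : ℤ) ≡ (r : ℤ) [ZMOD p] := by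
        push_cast
        exact Int.mod_modEq _ _
      exact (dvd_eval_iff (PP f n) h1).symm
    · intro p hp
      rw [hnuB]
      have := nu_le hf hp
      omega
  have hmain := hfund n y (by omega) hyt Q hper (n - 1)
  have hprod := prodpz_eq f n y
  rw [← hQ] at hprod
  rw [hprod] at hmain
  obtain ⟨W, hW⟩ : ∃ W : ℝ, W = VV (Zc (PP f n) 1 0) 0 y := ⟨_, rfl⟩
  rw [← hW] at hmain
  have hcast : (((n - 1 : ℕ) : ℕ) : ℝ) = n - 1 := by
    rw [Nat.cast_sub (by omega)]; simp
  rw [hcast] at hmain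
  obtain ⟨T, hT⟩ : ∃ T : Finset ℕ, T = (Icc 1 (n - 1)).filter (fun r : ℕ => ∀ p ∈ pz y, ¬ Q p r) := ⟨_, rfl⟩
  have hTc : |(T.card : ℝ) - (n - 1) * W| ≤ 1 / 2 * ((n - 1) * W) + Real.sqrt n := by
    rw [hT]
    convert hmain
  have hZ1 : ∀ q : ℕ, q.Prime → (Zc (PP f n) 1 0 q).card ≤ DD f := fun q hq => by
    rw [Zc_card f n (Or.inl rfl) hq.pos]; exact nu_le hf hq
  have hZ2 : ∀ q : ℕ, q.Prime → (Zc (PP f n) 1 0 q).card < q := fun q hq => by
    rw [Zc_card f n (Or.inl rfl) hq.pos]; exact nu_lt hf hq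
  have hcmp := VV_cmp (r := DD f) (C := 1) le_rfl (n := n) (Y := y) (by omega) (by omega) hZ1 hZ2
  rw [← Vn_eq f n (Or.inl rfl), ← hK, ← hW] at hcmp
  have hV := hVlow n (by omega) hf
  have hV0 : 0 < Vn f n := lt_of_lt_of_le (by positivity) hV
  have hW0 : 0 < W := lt_of_lt_of_le (by positivity) hcmp
  -- the error
  have hsq : Real.sqrt n * Real.sqrt n = n := Real.mul_self_sqrt hn0.le
  have hsq0 : 0 < Real.sqrt n := Real.sqrt_pos.2 hn0
  have hsq1 : 1 ≤ Real.sqrt n := by
    rw [Real.one_le_sqrt]; linarith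
  have herr : 32 * (DD f + 1) * (1 + K) * Real.sqrt n ≤ K * (n * Vn f n) := by
    have q1 : E * Real.log n ^ (2 * DD f) ≤ Real.sqrt n := by
      apply Real.le_sqrt_of_sq_le
      calc (E * Real.log n ^ (2 * DD f)) ^ 2 = E ^ 2 * Real.log n ^ (2 * (2 * DD f)) := by
            rw [mul_pow, ← pow_mul, mul_comm (2 * DD f) 2]
        _ ≤ (n : ℝ) := g3
    have q2 : 32 * (DD f + 1) * (1 + K) ≤ Real.sqrt n * (K * (cV / Real.log n ^ (2 * DD f))) := by
      have q3 : 0 < Real.log n ^ (2 * DD f) := by positivity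
      rw [hE, div_mul_eq_mul_div, div_le_iff₀ (by positivity)] at q1
      rw [show Real.sqrt n * (K * (cV / Real.log n ^ (2 * DD f))) =
        (Real.sqrt n * (K * cV)) / Real.log n ^ (2 * DD f) by ring, le_div_iff₀ q3]
      exact q1
    calc 32 * (DD f + 1) * (1 + K) * Real.sqrt n ≤
          Real.sqrt n * (K * (cV / Real.log n ^ (2 * DD f))) * Real.sqrt n :=
          mul_le_mul_of_nonneg_right q2 hsq0.le
      _ = K * ((Real.sqrt n * Real.sqrt n) * (cV / Real.log n ^ (2 * DD f))) := by ring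
      _ = K * (n * (cV / Real.log n ^ (2 * DD f))) := by rw [hsq]
      _ ≤ K * (n * Vn f n) := by
          apply mul_le_mul_of_nonneg_left _ hK0.le
          exact mul_le_mul_of_nonneg_left hV hn0.le
  have hs32 : 32 * (DD f + 1) * Real.sqrt n ≤ K * (n * Vn f n) := by
    refine le_trans ?_ herr
    have : 0 ≤ 32 * ((DD f : ℝ) + 1) * K * Real.sqrt n := by positivity
    nlinarith
  have hs32' : 32 * (DD f + 1) * Real.sqrt n ≤ n * Vn f n := by
    have q1 : 32 * (DD f + 1) * K * Real.sqrt n ≤ K * (n * Vn f n) := by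
      refine le_trans ?_ herr
      have : 0 ≤ 32 * ((DD f : ℝ) + 1) * Real.sqrt n := by positivity
      nlinarith
    have q2 : K * (32 * (DD f + 1) * Real.sqrt n) ≤ K * (n * Vn f n) := by
      refine le_trans (le_of_eq ?_) q1
      ring
    exact le_of_mul_le_mul_left q2 hK0
  have hnV : 0 < n * Vn f n := by positivity
  refine ⟨?_, ?_⟩
  · -- the lower bound
    set S := T.filter (fun x : ℕ => ¬ ∃ k, ((sub1 1 0 n (f k)).eval (x : ℤ)).natAbs = 1) with hS
    have hsplit := card_filter_add_card_filter_not (s := T)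
      (fun x : ℕ => ∃ k, ((sub1 1 0 n (f k)).eval (x : ℤ)).natAbs = 1)
    have hfew := few_fam f n 1 0 (fun k z hz => hn1 n (by omega) k 1 0 (Or.inl rfl) z hz) T
    have hcard : (T.card : ℝ) ≤ S.card + 2 * DD f := by
      have hSs : (T.filter (fun x : ℕ => ∃ k, ((sub1 1 0 n (f k)).eval (x : ℤ)).natAbs = 1)).card + S.card = T.card := by
        rw [hS]
        convert hsplit
      have : T.card ≤ S.card + 2 * DD f := by omega
      exact_mod_cast this
    refine ⟨S, ?_, ?_⟩
    · have q1 := (abs_le.1 hTc).1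
      have q2 : (n : ℝ) / 2 * (K * Vn f n) ≤ (n - 1) * W := by
        apply mul_le_mul (by linarith) hcmp (by positivity) (by linarith)
      have q3 : (DD f : ℝ) ≤ DD f * Real.sqrt n := le_mul_of_one_le_right hD0 hsq1
      nlinarith
    · intro x hx
      rw [hS, mem_filter, hT, mem_filter, mem_Icc] at hx
      obtain ⟨⟨⟨x1, x2⟩, hx3⟩, hx1⟩ := hx
      push Not at hx1
      refine ⟨by omega, by omega, ?_⟩
      intro k
      have hval : (sub1 1 0 n (f k)).eval (x : ℤ) = ev (f k) x (n - x) := by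
        rw [sub1_eval, one_mul, add_zero]
      rw [hw]
      apply AP_of ht'1 _ (show C ≤ n by omega)
      · apply hsz k _ _ n (by omega)
        · rw [abs_le]; constructor <;> omega
        · rw [abs_le]; constructor <;> omega
      · rw [← hval]; exact hx1 k
      · intro q hq hd
        by_contra hcon
        push Not at hcon
        rw [← hw] at hcon
        have hqy : q ≤ y := by rw [hy]; exact Nat.le_floor hcon
        apply hx3 q (mem_pz.2 ⟨hqy, hq⟩)
        rw [hQ]
        refine hd.trans ?_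
        rw [PP_eval]
        exact dvd_prod_of_mem (fun k => ev (f k) (x : ℤ) (n - (x : ℤ))) (mem_univ k)
      · rw [← hw]; linarith
  · -- the upper bound
    intro hm
    by_cases hcst : ∃ k, ∃ z : ℤ, sub1 1 0 n (f k) = Polynomial.C z
    · obtain ⟨k, z, hkz⟩ := hcst
      have h0 : (Ioo 0 n).filter (fun x : ℕ => ∀ k, (ev (f k) x (n - x)).natAbs.Prime) = ∅ := by
        rw [filter_eq_empty_iff]
        intro x _ hx
        have hval : ∀ x : ℤ, ev (f k) x (n - x) = z := by
          intro x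
          have := sub1_eval 1 0 n (f k) x
          rw [hkz, Polynomial.eval_C, one_mul, add_zero] at this
          exact this.symm
        have h1 := hx k
        rw [hval] at h1
        obtain ⟨x', hx'⟩ := hf _ h1
        apply hx'
        have h2 : ((z.natAbs : ℕ) : ℤ) ∣ ev (f k) x' (n - x') := by
          rw [hval]
          exact Int.natAbs_dvd.2 dvd_rfl
        exact h2.trans (dvd_prod_of_mem (fun k => ev (f k) x' (n - x')) (mem_univ k))
      rw [h0, card_empty]
      push_cast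
      positivity
    · push Not at hcst
      have hsub : (Ioo 0 n).filter (fun x : ℕ => ∀ k, (ev (f k) x (n - x)).natAbs.Prime) ⊆
          T ∪ (Ioo 0 n).filter (fun x : ℕ => ∃ k, ((sub1 1 0 n (f k)).eval (x : ℤ)).natAbs ≤ y) := by
        intro x hx
        rw [mem_filter] at hx
        obtain ⟨hx, hx1⟩ := hx
        rw [mem_Ioo] at hx
        rw [mem_union]
        by_cases hs : ∃ k, ((sub1 1 0 n (f k)).eval (x : ℤ)).natAbs ≤ y
        · right
          rw [mem_filter, mem_Ioo]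
          exact ⟨hx, hs⟩
        · left
          push Not at hs
          rw [hT, mem_filter, mem_Icc]
          refine ⟨⟨by omega, by omega⟩, ?_⟩
          intro p hp hd
          obtain ⟨p1, p2⟩ := mem_pz.1 hp
          rw [hQ] at hd
          have hd' : (p : ℤ) ∣ ∏ k, ev (f k) x (n - x) := by rw [← PP_eval]; exact hd
          rw [Prime.dvd_finsetProd_iff (Nat.prime_iff_prime_int.1 p2)] at hd'
          obtain ⟨k, _, hk⟩ := hd'
          have h1 : p ∣ (ev (f k) x (n - x)).natAbs := Int.natCast_dvd.1 hk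
          have h2 := (Nat.prime_dvd_prime_iff_eq p2 (hx1 k)).1 h1
          have h3 := hs k
          rw [sub1_eval, one_mul, add_zero, ← h2] at h3
          omega
      have hc1' := (card_le_card hsub).trans (card_union_le _ _)
      have hc2 := few_small f n y hcst (Ioo 0 n)
      have hc3 : (((Ioo 0 n).filter (fun x : ℕ => ∀ k, (ev (f k) x (n - x)).natAbs.Prime)).card : ℝ) ≤
          T.card + (2 * y + 1) * DD f := by
        exact_mod_cast hc1'.trans (Nat.add_le_add_left hc2 _)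
      have q1 := (abs_le.1 hTc).2
      -- the comparison of the products
      have hge := VV_ge' (DD f) (show 2 * DD f + 1 ≤ y by omega) hyn hZ1
      have hLV : L ≤ VV (Zc (PP f n) 1 0) y n := by
        refine le_trans ?_ hge
        rw [hL]
        apply pow_le_pow_left₀ (by positivity)
        rw [le_div_iff₀ (V1_pos y)]
        have h1 := (hVb n (by omega)).1
        have h2 := (hVb y hy2).2
        have hly : 0 < Real.log y := Real.log_pos (by exact_mod_cast (show 1 < y by omega))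
        calc c1 / (C1 * (2 * t')) * V1 y ≤ c1 / (C1 * (2 * t')) * (C1 / Real.log y) :=
              mul_le_mul_of_nonneg_left h2 (by positivity)
          _ = c1 / (2 * t' * Real.log y) := by field_simp
          _ ≤ c1 / Real.log n := by
              apply div_le_div_of_nonneg_left hc1.le hlog
              rw [div_le_iff₀ (by positivity)] at hlogy
              linarith
          _ ≤ V1 n := h1
      have hVW : Vn f n = W * VV (Zc (PP f n) 1 0) y n := by
        rw [Vn_eq f n (Or.inl rfl) (u := 0), hW, VV_split _ (Nat.zero_le _) hyn]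
      have hWV : W * L ≤ Vn f n := by
        rw [hVW]
        exact mul_le_mul_of_nonneg_left hLV hW0.le
      have hW2 : W ≤ Vn f n / L := by rw [le_div_iff₀ hL0]; exact hWV
      have q2 : (T.card : ℝ) ≤ 3 / 2 * (n * W) + Real.sqrt n := by
        have : (n - 1) * W ≤ n * W := by nlinarith
        nlinarith
      have q3 : (2 * (y : ℝ) + 1) * DD f ≤ 3 * (DD f * Real.sqrt n) := by
        have h1 : (2 * (y : ℝ) + 1) ≤ 3 * Real.sqrt n := by linarith
        calc (2 * (y : ℝ) + 1) * DD f ≤ (3 * Real.sqrt n) * DD f := mul_le_mul_of_nonneg_right h1 hD0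
          _ = _ := by ring
      have q4 : 3 / 2 * (n * W) ≤ 3 / (2 * L) * (n * Vn f n) := by
        calc 3 / 2 * (n * W) ≤ 3 / 2 * (n * (Vn f n / L)) := by
              apply mul_le_mul_of_nonneg_left _ (by norm_num)
              exact mul_le_mul_of_nonneg_left hW2 hn0.le
          _ = _ := by field_simp
      have q5 : Real.sqrt n + 3 * (DD f * Real.sqrt n) ≤ 3 * (n * Vn f n) := by
        have : 0 ≤ (DD f : ℝ) * Real.sqrt n := by positivity
        nlinarith
      calc (((Ioo 0 n).filter (fun x : ℕ => ∀ k, (ev (f k) x (n - x)).natAbs.Prime)).card : ℝ) ≤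
            T.card + (2 * y + 1) * DD f := hc3
        _ ≤ 3 / (2 * L) * (n * Vn f n) + 3 * (n * Vn f n) := by linarith
        _ = _ := by ring

end Pool.Agent.Q56.LN
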