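import Pool.Agent.Q56.LN.VExt
import Pool.Agent.Y840.CT.Gen

/-!
# Chen's theorem on the line `x + y = n`
-/

set_option autoImplicit false

namespace Pool.Agent.Q56.LN

open Finset Filter
open Pool.Agent.Y843.HS (Pr VV Pr_mem Pr_prime VV_split)
open Pool.Agent.Y843.HG (Adm Z0 SP)
open Pool.Agent.Y843.CH (hr Dat GD hr_lt hr_cast hr_eq_iff hr_zero_iff)
open Pool.Agent.Y840.CI (GI chenI)
open Pool.Agent.Y840.CT (length_le)

/-- the sieve classes without `0` -/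
noncomputable def OmL {m : ℕ} (f : Fin m → MvPolynomial (Fin 2) ℤ) (n : ℕ) (s u : ℤ) (q : ℕ) : Finset ℕ :=
  (Zc (PP f n) s u q).erase 0

theorem PP_su {m : ℕ} (f : Fin m → MvPolynomial (Fin 2) ℤ) (n : ℕ) (s u t : ℤ) :
    (PP f n).eval (s * t + u) = ∏ k, (sub1 s u n (f k)).eval t := by
  rw [PP_eval]
  apply prod_congr rfl
  intro k _
  rw [sub1_eval]

theorem Z0_OmL {m : ℕ} {f : Fin m → MvPolynomial (Fin 2) ℤ} {n : ℕ} {s u : ℤ} {i : Fin m} {e : ℤ}
    (hi : ∀ t : ℤ, (sub1 s u n (f i)).eval t = e * t) {q : ℕ} (hq : 0 < q) :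
    Z0 (OmL f n s u) q = Zc (PP f n) s u q := by
  classical
  have h0 : 0 ∈ Zc (PP f n) s u q := by
    have h1 := (mem_Zc (P := PP f n) (s := s) (u := u) (t := 0) hq)
    rw [Nat.zero_mod] at h1
    rw [h1]
    rw [PP_su]
    refine Dvd.dvd.trans ?_ (dvd_prod_of_mem _ (mem_univ i))
    rw [hi]
    simp
  unfold Z0 OmL
  rw [insert_erase h0]

theorem dat_line {m : ℕ} {f : Fin m → MvPolynomial (Fin 2) ℤ} {n : ℕ} {s u : ℤ} (hs : s = 1 ∨ s = -1)
    (hf : NoFixed f n) {i j : Fin m} {e e' h : ℤ} (hi : ∀ t : ℤ, (sub1 s u n (f i)).eval t = e * t)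
    (hj : ∀ t : ℤ, (sub1 s u n (f j)).eval t = e' * (t - h)) (Y : ℕ) :
    Dat (DD f) Y h (OmL f n s u) := by
  classical
  constructor
  · intro q hq
    have hqp := Pr_prime hq
    have h0 : Z0 (OmL f n s u) q = Zc (PP f n) s u q := Z0_OmL hi hqp.pos
    have hn0 : 0 ∉ OmL f n s u q := by unfold OmL; simp
    have hc : (OmL f n s u q).card + 1 = nu f n q := by
      rw [← Zc_card f n hs hqp.pos (u := u), ← h0]
      unfold Z0
      rw [card_insert_of_notMem hn0]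
    refine ⟨?_, ?_, hn0, ?_⟩
    · have := nu_le hf hqp
      omega
    · rw [hc]
      exact nu_lt hf hqp
    · intro c hc
      unfold OmL at hc
      have := mem_of_mem_erase hc
      unfold Zc at this
      rw [mem_filter, mem_range] at this
      exact this.1
  · intro q hq
    have hqp := Pr_prime hq
    rw [Z0_OmL hi hqp.pos]
    have h1 := (mem_Zc (P := PP f n) (s := s) (u := u) (t := hr h q) hqp.pos)
    rw [Nat.mod_eq_of_lt (hr_lt h hqp.pos)] at h1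
    rw [h1, PP_su]
    refine Dvd.dvd.trans ?_ (dvd_prod_of_mem _ (mem_univ j))
    rw [hj]
    apply Dvd.dvd.mul_left
    rw [hr_cast h hqp.pos]
    have := Int.mod_modEq h q
    exact Int.modEq_iff_dvd.1 this.symm

theorem mem_GI {A B N X Y : ℕ} {h : ℤ} {Om : ℕ → Finset ℕ} {p : ℕ} (hp : p ∈ GI A B N X Y h Om) :
    p ≤ X ∧ p.Prime ∧ (∀ q ∈ Pr 0 Y, p % q ∉ Z0 Om q) ∧ h ≠ p ∧ (h - p).natAbs.primeFactorsList.length ≤ 2 ∧
      (∀ q : ℕ, q.Prime → q ∣ (h - p).natAbs → (N : ℝ) ^ (1 / 4 : ℝ) ≤ q) ∧ A < p ∧ p ≤ B := by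
  classical
  unfold GI GD SP at hp
  rw [mem_filter, mem_filter, mem_filter, mem_Ioc] at hp
  obtain ⟨⟨⟨⟨p1, p2⟩, p3, p4⟩, p5, p6, p7⟩, pA, pB⟩ := hp
  exact ⟨p2, p3, p4, p5, p6, p7, pA, pB⟩

theorem ninth : ∀ᶠ X : ℕ in atTop, (X : ℝ) ^ (1 / 9 : ℝ) < (Nat.sqrt X : ℝ) ^ (1 / 4 : ℝ) := by
  have h1 : ∀ᶠ X : ℕ in atTop, (2 : ℝ) < (X : ℝ) ^ (1 / 18 : ℝ) :=
    ((tendsto_rpow_atTop (show (0 : ℝ) < 1 / 18 by norm_num)).comp
      tendsto_natCast_atTop_atTop).eventually (eventually_gt_atTop 2)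
  filter_upwards [h1, eventually_ge_atTop 1] with X hX hX1
  have hX0 : (0 : ℝ) < X := by exact_mod_cast hX1
  have h2 : (X : ℝ) ^ (4 / 9 : ℝ) < Nat.sqrt X := by
    have h3 : (X : ℝ) < ((Nat.sqrt X : ℝ) + 1) ^ 2 := by
      have := Nat.lt_succ_sqrt' X
      exact_mod_cast this
    have h4 : (X : ℝ) ^ (1 / 2 : ℝ) < Nat.sqrt X + 1 := by
      have h5 := Real.rpow_lt_rpow hX0.le h3 (show (0 : ℝ) < 1 / 2 by norm_num)
      rwa [← Real.rpow_natCast, ← Real.rpow_mul (by positivity), show ((2 : ℕ) : ℝ) * (1 / 2) = 1 by norm_num,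
        Real.rpow_one] at h5
    have h5 : (X : ℝ) ^ (1 / 2 : ℝ) = (X : ℝ) ^ (4 / 9 : ℝ) * (X : ℝ) ^ (1 / 18 : ℝ) := by
      rw [← Real.rpow_add hX0]
      norm_num
    have h6 : (1 : ℝ) ≤ (X : ℝ) ^ (4 / 9 : ℝ) := Real.one_le_rpow (by exact_mod_cast hX1) (by norm_num)
    nlinarith
  have h3 := Real.rpow_lt_rpow (by positivity) h2 (show (0 : ℝ) < 1 / 4 by norm_num)
  rwa [← Real.rpow_mul hX0.le, show (4 / 9 : ℝ) * (1 / 4) = 1 / 9 by norm_num] at h3

/-- a common bound for the values of the members of the family -/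
theorem size_fam {m : ℕ} (f : Fin m → MvPolynomial (Fin 2) ℤ) : ∃ C d : ℕ, ∀ (k : Fin m) (x y : ℤ) (X : ℕ), 1 ≤ X →
    |x| ≤ X → |y| ≤ X → |ev (f k) x y| ≤ C * (X : ℤ) ^ d := by
  classical
  choose C d h using fun k => size (f k)
  refine ⟨∑ k, C k, ∑ k, d k, fun k x y X hX hx hy => (h k x y X hX hx hy).trans ?_⟩
  have hX' : (1 : ℤ) ≤ X := by exact_mod_cast hX
  have h1 : C k ≤ ∑ k, C k := single_le_sum (fun _ _ => Nat.zero_le _) (mem_univ k)
  have h2 : d k ≤ ∑ k, d k := single_le_sum (fun _ _ => Nat.zero_le _) (mem_univ k)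
  have h3 : (X : ℤ) ^ d k ≤ (X : ℤ) ^ (∑ k, d k) := pow_le_pow_right₀ hX' h2
  have h4 : ((C k : ℕ) : ℤ) ≤ ((∑ k, C k : ℕ) : ℤ) := by exact_mod_cast h1
  exact mul_le_mul h4 h3 (by positivity) (by positivity)

/-- the members of the family are not a unit on the line, for large `n` -/
theorem non_unit {m : ℕ} (f : Fin m → MvPolynomial (Fin 2) ℤ) (hnc : ∀ k z, f k ≠ MvPolynomial.C z) :
    ∃ n₀ : ℕ, ∀ n : ℕ, n₀ ≤ n → ∀ k, ∀ s u : ℤ, (s = 1 ∨ s = -1) → ∀ z : ℤ, (z = 1 ∨ z = -1) →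
      sub1 s u n (f k) ≠ Polynomial.C z := by
  classical
  choose a ha using fun k => non_const (f k) 1 (hnc k 1)
  choose b hb using fun k => non_const (f k) (-1) (hnc k (-1))
  refine ⟨∑ k, a k + ∑ k, b k, fun n hn k s u hs z hz h => ?_⟩
  have h1 : a k ≤ ∑ k, a k := single_le_sum (fun _ _ => Nat.zero_le _) (mem_univ k)
  have h2 : b k ≤ ∑ k, b k := single_le_sum (fun _ _ => Nat.zero_le _) (mem_univ k)
  have hss : s * s = 1 := by rcases hs with rfl | rfl <;> norm_num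
  have h3 : sub1 1 0 n (f k) = Polynomial.C z := by
    apply Polynomial.funext
    intro x
    rw [sub1_eval, Polynomial.eval_C, one_mul, add_zero]
    have h4 := congrArg (Polynomial.eval (s * (x - u))) h
    rw [sub1_eval, Polynomial.eval_C, ← mul_assoc, hss, one_mul, sub_add_cancel] at h4
    exact h4
  rcases hz with rfl | rfl
  · exact ha k n (by omega) h3
  · exact hb k n (by omega) h3

/-- few elements of a set of natural numbers with a value `1` or `-1` -/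
theorem few_fam {m : ℕ} (f : Fin m → MvPolynomial (Fin 2) ℤ) (n : ℕ) (s u : ℤ)
    (h : ∀ k, ∀ z : ℤ, (z = 1 ∨ z = -1) → sub1 s u n (f k) ≠ Polynomial.C z) (S : Finset ℕ) :
    (S.filter (fun t : ℕ => ∃ k, ((sub1 s u n (f k)).eval (t : ℤ)).natAbs = 1)).card ≤ 2 * DD f := by
  classical
  have h1 : S.filter (fun t : ℕ => ∃ k, ((sub1 s u n (f k)).eval (t : ℤ)).natAbs = 1) ⊆
      univ.biUnion (fun k => S.filter (fun t : ℕ => ((sub1 s u n (f k)).eval (t : ℤ)).natAbs = 1)) := by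
    intro t ht
    rw [mem_filter] at ht
    obtain ⟨ht, k, hk⟩ := ht
    rw [mem_biUnion]
    exact ⟨k, mem_univ _, mem_filter.2 ⟨ht, hk⟩⟩
  refine (card_le_card h1).trans (card_biUnion_le.trans ?_)
  unfold DD
  rw [mul_sum]
  apply Finset.sum_le_sum
  intro k _
  calc (S.filter (fun t : ℕ => ((sub1 s u n (f k)).eval (t : ℤ)).natAbs = 1)).card
      ≤ ((S.image (fun t : ℕ => (t : ℤ))).filter (fun t => ((sub1 s u n (f k)).eval t).natAbs = 1)).card := by
        apply card_le_card_of_injOn (fun t : ℕ => (t : ℤ))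
        · intro t ht
          rw [mem_coe, mem_filter] at ht ⊢
          exact ⟨mem_image_of_mem _ ht.1, ht.2⟩
        · exact Nat.cast_injective.injOn
    _ ≤ 2 * (sub1 s u n (f k)).natDegree := few_unit _ (h k 1 (Or.inl rfl)) (h k (-1) (Or.inr rfl)) _
    _ ≤ 2 * (f k).totalDegree := Nat.mul_le_mul_left 2 (sub1_deg _ _ _ _)

/-- rough values are almost primes -/
theorem AP_of {t C d n : ℕ} (ht : 1 ≤ t) (hn2 : 2 ≤ (n : ℝ) ^ (1 / (t : ℝ))) (hC : C ≤ n) {v : ℤ}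
    (hv : |v| ≤ C * (n : ℤ) ^ d)
    (h1 : v.natAbs ≠ 1) (hq : ∀ q : ℕ, q.Prime → (q : ℤ) ∣ v → (n : ℝ) ^ (1 / (t : ℝ)) < q) :
    AP (t * (d + 1)) ((n : ℝ) ^ (1 / (t : ℝ))) v := by
  have ht0 : (0 : ℝ) < t := by exact_mod_cast ht
  have hne : v ≠ 0 := by
    intro h0
    have := hq 2 Nat.prime_two (by rw [h0]; exact dvd_zero _)
    push_cast at this
    linarith
  have hne' : v.natAbs ≠ 0 := Int.natAbs_ne_zero.2 hne
  refine ⟨by omega, ?_, hq⟩
  have hyt : ((n : ℝ) ^ (1 / (t : ℝ))) ^ t = n := by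
    rw [← Real.rpow_natCast, ← Real.rpow_mul (Nat.cast_nonneg n), one_div, inv_mul_cancel₀ ht0.ne', Real.rpow_one]
  have hn1 : (1 : ℝ) ≤ n := by
    rw [← hyt]
    exact one_le_pow₀ (by linarith)
  refine length_le (B := (n : ℝ) ^ (d + 1)) (y := (n : ℝ) ^ (1 / (t : ℝ))) hne' (by linarith) ?_ ?_ ?_
  · have h3 : (v.natAbs : ℤ) ≤ C * (n : ℤ) ^ d := by rw [← Int.abs_eq_natAbs]; exact hv
    have h4 : (v.natAbs : ℝ) ≤ C * (n : ℝ) ^ d := by exact_mod_cast h3
    have h5 : (C : ℝ) ≤ n := by exact_mod_cast hC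
    calc (v.natAbs : ℝ) ≤ C * (n : ℝ) ^ d := h4
      _ ≤ n * (n : ℝ) ^ d := mul_le_mul_of_nonneg_right h5 (by positivity)
      _ = (n : ℝ) ^ (d + 1) := by ring
  · rw [pow_succ ((n : ℝ) ^ (1 / (t : ℝ))) (t * (d + 1)), pow_mul, hyt]
    have : 0 < (n : ℝ) ^ (d + 1) := by positivity
    nlinarith
  · intro q hq1 hq2
    exact hq q hq1 (Int.natCast_dvd.2 hq2)

open Classical in
/-- the good `x` -/
noncomputable def Gx {m : ℕ} (f : Fin m → MvPolynomial (Fin 2) ℤ) (i j : Fin m) (R : ℕ) (δ : ℝ) (n : ℕ) : Finset ℕ :=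
  (Ioo 0 n).filter (fun x : ℕ => (ev (f i) x (n - x)).natAbs.Prime ∧
    AP 2 ((n : ℝ) ^ (1 / 9 : ℝ)) (ev (f j) x (n - x)) ∧ ∀ k, AP R ((n : ℝ) ^ δ) (ev (f k) x (n - x)))

theorem lin_eval {a b c : ℤ} {f : MvPolynomial (Fin 2) ℤ}
    (hf : f = MvPolynomial.C a * MvPolynomial.X 0 + MvPolynomial.C b * MvPolynomial.X 1 + MvPolynomial.C c) (x y : ℤ) :
    ev f x y = a * x + b * y + c := by
  unfold ev
  rw [hf]
  simp

/-- the main counting step -/
theorem count {m : ℕ} {f : Fin m → MvPolynomial (Fin 2) ℤ} {n : ℕ} {s u : ℤ} (hs : s = 1 ∨ s = -1)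
    (hf : NoFixed f n) {i j : Fin m} {e e' h : ℤ} (he : e = 1 ∨ e = -1) (he' : e' = 1 ∨ e' = -1)
    (hi : ∀ t : ℤ, (sub1 s u n (f i)).eval t = e * t)
    (hj : ∀ t : ℤ, (sub1 s u n (f j)).eval t = e' * (t - h))
    (hnu : ∀ k, ∀ z : ℤ, (z = 1 ∨ z = -1) → sub1 s u n (f k) ≠ Polynomial.C z)
    {A B X t C d : ℕ} (ht : 1 ≤ t) (hn2 : 2 ≤ (n : ℝ) ^ (1 / (t : ℝ))) (hCn : C ≤ n)
    (hsz : ∀ (k : Fin m) (x y : ℤ) (X : ℕ), 1 ≤ X → |x| ≤ X → |y| ≤ X → |ev (f k) x y| ≤ C * (X : ℤ) ^ d)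
    (hnX : n ≤ X) (hX9 : (X : ℝ) ^ (1 / 9 : ℝ) < (Nat.sqrt X : ℝ) ^ (1 / 4 : ℝ))
    (hw : ∀ p : ℕ, A < p → p ≤ B → 1 ≤ s * p + u ∧ s * p + u ≤ n - 1) :
    (GI A B (Nat.sqrt X) X ⌊(X : ℝ) ^ (1 / (t : ℝ))⌋₊ h (OmL f n s u)).card ≤
      (Gx f i j (t * (d + 1)) (1 / (t : ℝ)) n).card + 2 * DD f := by
  classical
  have ht0 : (0 : ℝ) < t := by exact_mod_cast ht
  set Y := ⌊(X : ℝ) ^ (1 / (t : ℝ))⌋₊ with hY
  set G := GI A B (Nat.sqrt X) X Y h (OmL f n s u) with hG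
  have hnXr : (n : ℝ) ^ (1 / (t : ℝ)) ≤ (X : ℝ) ^ (1 / (t : ℝ)) :=
    Real.rpow_le_rpow (Nat.cast_nonneg _) (by exact_mod_cast hnX) (by positivity)
  have hn1 : 1 ≤ n := by
    by_contra hcon
    have : n = 0 := by omega
    rw [this, Nat.cast_zero, Real.zero_rpow (by positivity)] at hn2
    linarith
  have hss : s * s = 1 := by rcases hs with rfl | rfl <;> norm_num
  have hsplit := card_filter_add_card_filter_not (s := G)
    (fun t : ℕ => ∃ k, ((sub1 s u n (f k)).eval (t : ℤ)).natAbs = 1)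
  have hfew := few_fam f n s u hnu G
  have hmap : (G.filter (fun t : ℕ => ¬ ∃ k, ((sub1 s u n (f k)).eval (t : ℤ)).natAbs = 1)).card ≤
      (Gx f i j (t * (d + 1)) (1 / (t : ℝ)) n).card := by
    apply card_le_card_of_injOn (fun p : ℕ => (s * p + u).toNat)
    · intro p hp
      rw [mem_coe, mem_filter, hG] at hp
      obtain ⟨hp, hp1⟩ := hp
      push Not at hp1
      obtain ⟨p2, p3, p4, p5, p6, p7, pA, pB⟩ := mem_GI hp
      obtain ⟨w1, w2⟩ := hw p pA pB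
      rw [mem_coe]
      change (s * (p : ℤ) + u).toNat ∈ _
      unfold Gx
      rw [mem_filter, mem_Ioo]
      have hx : (((s * p + u).toNat : ℕ) : ℤ) = s * p + u := Int.toNat_of_nonneg (by omega)
      rw [hx]
      -- all prime factors are large
      have hlarge : ∀ k, ∀ q : ℕ, q.Prime → (q : ℤ) ∣ ev (f k) (s * p + u) (n - (s * p + u)) →
          (X : ℝ) ^ (1 / (t : ℝ)) < q := by
        intro k q hq hd
        by_contra hcon
        push Not at hcon
        have hqY : q ≤ Y := Nat.le_floor hcon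
        have h3 := p4 q (Pr_mem.2 ⟨⟨hq.pos, hqY⟩, hq⟩)
        apply h3
        rw [Z0_OmL hi hq.pos, mem_Zc hq.pos, PP_eval]
        exact hd.trans (dvd_prod_of_mem _ (mem_univ k))
      have hvi : ev (f i) (s * p + u) (n - (s * p + u)) = e * p := by
        rw [← sub1_eval]; exact hi p
      have hvj : ev (f j) (s * p + u) (n - (s * p + u)) = e' * (p - h) := by
        rw [← sub1_eval]; exact hj p
      have hvja : (ev (f j) (s * p + u) (n - (s * p + u))).natAbs = (h - p).natAbs := by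
        rw [hvj]
        rcases he' with rfl | rfl
        · rw [one_mul, ← Int.natAbs_neg, neg_sub]
        · rw [neg_one_mul, neg_sub]
      have hone : ∀ k, (ev (f k) (s * p + u) (n - (s * p + u))).natAbs ≠ 1 := by
        intro k
        rw [← sub1_eval]
        exact hp1 k
      refine ⟨⟨by omega, by omega⟩, ?_, ?_, ?_⟩
      · rw [hvi]
        rcases he with rfl | rfl
        · rw [one_mul, Int.natAbs_natCast]; exact p3
        · rw [neg_one_mul, Int.natAbs_neg, Int.natAbs_natCast]; exact p3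
      · refine ⟨?_, ?_, ?_⟩
        · have h1 := hone j
          have h2 : (ev (f j) (s * p + u) (n - (s * p + u))).natAbs ≠ 0 := by
            rw [hvja]
            exact Int.natAbs_ne_zero.2 (sub_ne_zero.2 p5)
          omega
        · rw [hvja]; exact p6
        · intro q hq hd
          have h1 : q ∣ (h - p).natAbs := by
            rw [← hvja]
            exact Int.natCast_dvd.1 hd
          have h2 := p7 q hq h1
          have h3 : (n : ℝ) ^ (1 / 9 : ℝ) ≤ (X : ℝ) ^ (1 / 9 : ℝ) :=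
            Real.rpow_le_rpow (Nat.cast_nonneg _) (by exact_mod_cast hnX) (by norm_num)
          linarith
      · intro k
        apply AP_of ht hn2 hCn _ (hone k)
        · intro q hq hd
          exact lt_of_le_of_lt hnXr (hlarge k q hq hd)
        · apply hsz k _ _ n hn1
          · rw [abs_le]; constructor <;> omega
          · rw [abs_le]; constructor <;> omega
    · intro p hp p' hp' hpp
      rw [mem_coe, mem_filter, hG] at hp hp'
      obtain ⟨-, -, -, -, -, -, pA, pB⟩ := mem_GI hp.1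
      obtain ⟨-, -, -, -, -, -, pA', pB'⟩ := mem_GI hp'.1
      obtain ⟨w1, w2⟩ := hw p pA pB
      obtain ⟨w1', w2'⟩ := hw p' pA' pB'
      have h1 : (s * p + u).toNat = (s * p' + u).toNat := hpp
      have h2 : s * (p : ℤ) + u = s * p' + u := by omega
      have h3 : s * (p : ℤ) = s * p' := by linarith
      rcases hs with rfl | rfl
      · omega
      · omega
  omega

end Pool.Agent.Q56.LN
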