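import Mathlib

/-!
# Families of polynomials on the line `x + y = n`: definitions
-/

set_option autoImplicit false

namespace Pool.Agent.Q56.LN

open Finset

/-- the value of a polynomial in two variables -/
noncomputable def ev (f : MvPolynomial (Fin 2) ℤ) (x y : ℤ) : ℤ := MvPolynomial.eval ![x, y] f

/-- `f` is linear, with coefficient `1` or `-1` of `x` on the lines `x + y = n` -/
def LinUnit (f : MvPolynomial (Fin 2) ℤ) : Prop := ∃ a b c : ℤ, (a - b = 1 ∨ a - b = -1) ∧
  f = MvPolynomial.C a * MvPolynomial.X 0 + MvPolynomial.C b * MvPolynomial.X 1 + MvPolynomial.C c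

/-- no prime divides all the products of the values on the line `x + y = n` -/
def NoFixed {m : ℕ} (f : Fin m → MvPolynomial (Fin 2) ℤ) (n : ℕ) : Prop :=
  ∀ q : ℕ, q.Prime → ∃ x : ℤ, ¬ (q : ℤ) ∣ ∏ k, ev (f k) x (n - x)

open Classical in
/-- the number of residue classes `x` modulo `q` for which `q` divides the product of the values at `(x, n - x)` -/
noncomputable def nu {m : ℕ} (f : Fin m → MvPolynomial (Fin 2) ℤ) (n q : ℕ) : ℕ :=
  ((range q).filter (fun x : ℕ => (q : ℤ) ∣ ∏ k, ev (f k) x (n - x))).card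

/-- the sieve product -/
noncomputable def Vn {m : ℕ} (f : Fin m → MvPolynomial (Fin 2) ℤ) (n : ℕ) : ℝ :=
  ∏ q ∈ (Icc 1 n).filter Nat.Prime, (1 - (nu f n q : ℝ) / q)

/-- `v` is up to sign a product of at least one and at most `t` primes, all of them larger than `y` -/
def AP (t : ℕ) (y : ℝ) (v : ℤ) : Prop :=
  1 < v.natAbs ∧ v.natAbs.primeFactorsList.length ≤ t ∧ ∀ q : ℕ, q.Prime → (q : ℤ) ∣ v → y < q

end Pool.Agent.Q56.LN
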