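import Pool.Agent.Q56.LN.Poly

/-!
# Local densities on the line `x + y = n`
-/

set_option autoImplicit false

namespace Pool.Agent.Q56.LN

open Finset

/-- the product of the restrictions to the line -/
noncomputable def PP {m : ℕ} (f : Fin m → MvPolynomial (Fin 2) ℤ) (n : ℕ) : Polynomial ℤ :=
  ∏ k, sub1 1 0 n (f k)

theorem PP_eval {m : ℕ} (f : Fin m → MvPolynomial (Fin 2) ℤ) (n : ℕ) (x : ℤ) :
    (PP f n).eval x = ∏ k, ev (f k) x (n - x) := by
  unfold PP
  rw [Polynomial.eval_prod]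
  apply prod_congr rfl
  intro k _
  rw [sub1_eval, one_mul, add_zero]

/-- the sum of the degrees -/
noncomputable def DD {m : ℕ} (f : Fin m → MvPolynomial (Fin 2) ℤ) : ℕ := ∑ k, (f k).totalDegree

theorem PP_deg {m : ℕ} (f : Fin m → MvPolynomial (Fin 2) ℤ) (n : ℕ) : (PP f n).natDegree ≤ DD f := by
  unfold PP DD
  refine (Polynomial.natDegree_prod_le _ _).trans ?_
  exact Finset.sum_le_sum fun k _ => sub1_deg _ _ _ _

/-- divisibility depends on the class only -/
theorem dvd_eval_iff {q : ℕ} (P : Polynomial ℤ) {x y : ℤ} (h : x ≡ y [ZMOD q]) :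
    (q : ℤ) ∣ P.eval x ↔ (q : ℤ) ∣ P.eval y := by
  have h1 : (q : ℤ) ∣ P.eval y - P.eval x := (Int.modEq_iff_dvd.1 h).trans (Polynomial.sub_dvd_eval_sub _ _ _)
  constructor
  · intro h2
    have := dvd_add h1 h2
    rwa [sub_add_cancel] at this
  · intro h2
    have := dvd_sub h2 h1
    rwa [sub_sub_cancel] at this

open Classical in
/-- the classes of `t` with `q ∣ P (s t + u)` -/
noncomputable def Zc (P : Polynomial ℤ) (s u : ℤ) (q : ℕ) : Finset ℕ :=
  (range q).filter (fun t : ℕ => (q : ℤ) ∣ P.eval (s * t + u))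

theorem mem_Zc {P : Polynomial ℤ} {s u : ℤ} {q t : ℕ} (hq : 0 < q) :
    t % q ∈ Zc P s u q ↔ (q : ℤ) ∣ P.eval (s * t + u) := by
  unfold Zc
  rw [mem_filter, mem_range]
  have h1 : s * ((t % q : ℕ) : ℤ) + u ≡ s * t + u [ZMOD q] := by
    have : ((t % q : ℕ) : ℤ) ≡ (t : ℤ) [ZMOD q] := by
      push_cast
      exact Int.mod_modEq _ _
    exact (this.mul_left s).add_right u
  rw [dvd_eval_iff P h1]
  constructor
  · exact fun h => h.2
  · exact fun h => ⟨Nat.mod_lt _ hq, h⟩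

theorem Zc_card {m : ℕ} (f : Fin m → MvPolynomial (Fin 2) ℤ) (n : ℕ) {s u : ℤ} (hs : s = 1 ∨ s = -1) {q : ℕ}
    (hq : 0 < q) : (Zc (PP f n) s u q).card = nu f n q := by
  classical
  unfold Zc nu
  have hq' : (q : ℤ) ≠ 0 := by exact_mod_cast hq.ne'
  have hq0 : (0 : ℤ) < q := by exact_mod_cast hq
  have key : ∀ a : ℤ, (((a % q).toNat : ℕ) : ℤ) ≡ a [ZMOD q] := by
    intro a
    rw [Int.toNat_of_nonneg (Int.emod_nonneg a hq')]
    exact Int.mod_modEq _ _
  have klt : ∀ a : ℤ, (a % q).toNat < q := by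
    intro a
    have h1 := Int.emod_lt_of_pos a hq0
    have h2 := Int.emod_nonneg a hq'
    omega
  have hss : s * s = 1 := by rcases hs with rfl | rfl <;> norm_num
  apply card_nbij' (fun t : ℕ => ((s * t + u) % q).toNat) (fun x : ℕ => ((s * (x - u)) % q).toNat)
  · intro t ht
    rw [mem_coe, mem_filter, mem_range] at ht ⊢
    refine ⟨klt _, ?_⟩
    rw [← PP_eval, dvd_eval_iff (PP f n) (key _)]
    exact ht.2
  · intro x hx
    rw [mem_coe, mem_filter, mem_range] at hx ⊢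
    refine ⟨klt _, ?_⟩
    rw [← PP_eval] at hx
    have h1 : s * (((s * ((x : ℤ) - u)) % q).toNat : ℕ) + u ≡ x [ZMOD q] := by
      have h2 := ((key (s * ((x : ℤ) - u))).mul_left s).add_right u
      have h3 : s * (s * ((x : ℤ) - u)) + u = x := by
        rw [← mul_assoc, hss]; ring
      rwa [h3] at h2
    rw [dvd_eval_iff (PP f n) h1]
    exact hx.2
  · intro t ht
    rw [mem_coe, mem_filter, mem_range] at ht
    have h1 : ((((s * (((((s * t + u) % q).toNat : ℕ) : ℤ) - u)) % q).toNat : ℕ) : ℤ) ≡ t [ZMOD q] := by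
      refine (key _).trans ?_
      have h2 := ((key (s * (t : ℤ) + u)).sub_right u).mul_left s
      have h3 : s * (s * (t : ℤ) + u - u) = t := by
        rw [add_sub_cancel_right, ← mul_assoc, hss, one_mul]
      rwa [h3] at h2
    have h4 : ((s * (((((s * t + u) % q).toNat : ℕ) : ℤ) - u)) % q).toNat ≡ t [MOD q] := by
      exact_mod_cast h1
    exact Nat.ModEq.eq_of_lt_of_lt h4 (klt _) ht.1
  · intro x hx
    rw [mem_coe, mem_filter, mem_range] at hx
    have h1 : ((((s * ((((s * ((x : ℤ) - u)) % q).toNat : ℕ) : ℤ) + u) % q).toNat : ℕ) : ℤ) ≡ x [ZMOD q] := by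
      refine (key _).trans ?_
      have h2 := ((key (s * ((x : ℤ) - u))).mul_left s).add_right u
      have h3 : s * (s * ((x : ℤ) - u)) + u = x := by
        rw [← mul_assoc, hss]; ring
      rwa [h3] at h2
    have h4 : ((s * ((((s * ((x : ℤ) - u)) % q).toNat : ℕ) : ℤ) + u) % q).toNat ≡ x [MOD q] := by
      exact_mod_cast h1
    exact Nat.ModEq.eq_of_lt_of_lt h4 (klt _) hx.1

theorem nu_lt {m : ℕ} {f : Fin m → MvPolynomial (Fin 2) ℤ} {n : ℕ} (h : NoFixed f n) {q : ℕ} (hq : q.Prime) :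
    nu f n q < q := by
  classical
  unfold nu
  obtain ⟨x, hx⟩ := h q hq
  have hq' : (q : ℤ) ≠ 0 := by exact_mod_cast hq.ne_zero
  have hq0 : (0 : ℤ) < q := by exact_mod_cast hq.pos
  have klt : (x % q).toNat < q := by
    have h1 := Int.emod_lt_of_pos x hq0
    have h2 := Int.emod_nonneg x hq'
    omega
  have h1 : (range q).filter (fun x : ℕ => (q : ℤ) ∣ ∏ k, ev (f k) x (n - x)) ⊂ range q := by
    rw [Finset.ssubset_iff_of_subset (filter_subset _ _)]
    refine ⟨(x % q).toNat, mem_range.2 klt, ?_⟩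
    rw [mem_filter]
    rintro ⟨-, h2⟩
    apply hx
    rw [← PP_eval] at h2 ⊢
    have h3 : (((x % q).toNat : ℕ) : ℤ) ≡ x [ZMOD q] := by
      rw [Int.toNat_of_nonneg (Int.emod_nonneg x hq')]
      exact Int.mod_modEq _ _
    exact (dvd_eval_iff (PP f n) h3).1 h2
  have := card_lt_card h1
  rwa [card_range] at this

theorem nu_le {m : ℕ} {f : Fin m → MvPolynomial (Fin 2) ℤ} {n : ℕ} (h : NoFixed f n) {q : ℕ} (hq : q.Prime) :
    nu f n q ≤ DD f := by
  classical
  unfold nu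
  obtain ⟨x, hx⟩ := h q hq
  refine le_trans ?_ ((roots_mod hq (PP f n) ⟨x, by rwa [PP_eval]⟩).trans (PP_deg f n))
  apply le_of_eq
  congr 1
  apply filter_congr
  intro x _
  rw [PP_eval]

/-- the range of the variable -/
theorem window (n : ℕ) (hn : 4 ≤ n) (u : ℤ) : ∃ s : ℤ, (s = 1 ∨ s = -1) ∧ ∃ A B : ℕ, (B : ℤ) ≤ n + |u| ∧
    (n : ℤ) ≤ 4 * ((B : ℤ) - A) ∧ ∀ p : ℕ, A < p → p ≤ B → 1 ≤ s * p + u ∧ s * p + u ≤ n - 1 := by
  rcases le_total (2 * u) n with h | h
  · refine ⟨1, Or.inl rfl, (max 0 (-u)).toNat, (n - 1 - u).toNat, ?_, ?_, ?_⟩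
    · rcases abs_cases u with h1 | h1 <;> omega
    · rcases max_cases 0 (-u) with h1 | h1 <;> omega
    · intro p h1 h2
      rcases max_cases 0 (-u) with h3 | h3 <;> omega
  · refine ⟨-1, Or.inr rfl, (max 0 (u - n)).toNat, (u - 1).toNat, ?_, ?_, ?_⟩
    · rcases abs_cases u with h1 | h1 <;> omega
    · rcases max_cases 0 (u - n) with h1 | h1 <;> omega
    · intro p h1 h2
      rcases max_cases 0 (u - n) with h3 | h3 <;> omega

end Pool.Agent.Q56.LN
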