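import Pool.Agent.Q56.LN.Chen

/-!
# Chen's theorem on the line `x + y = n`: the main theorem
-/

set_option autoImplicit false

namespace Pool.Agent.Q56.LN

open Finset Filter
open Pool.Agent.Y843.HS (Pr VV Pr_mem Pr_prime VV_split)
open Pool.Agent.Y843.HG (Adm Z0 SP)
open Pool.Agent.Y843.CH (hr Dat GD hr_lt hr_cast hr_eq_iff hr_zero_iff)
open Pool.Agent.Y840.CI (GI chenI)

/-- the shift is not zero -/
theorem shift_ne {s0 s1 b0 c0 b1 c1 : ℤ} (h0 : s0 = 1 ∨ s0 = -1) (h1 : s1 = 1 ∨ s1 = -1) {n : ℕ}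
    (hn : |c0| + |c1| < n) (h : s0 * (b0 * n + c0) = s1 * (b1 * n + c1)) :
    s0 * b0 = s1 * b1 ∧ s0 * c0 = s1 * c1 := by
  have e1 : (s0 * b0 - s1 * b1) * n = s1 * c1 - s0 * c0 := by linarith
  have e2 : |s1 * c1 - s0 * c0| < n := by
    have a1 : |s1 * c1| = |c1| := by rcases h1 with rfl | rfl <;> simp
    have a0 : |s0 * c0| = |c0| := by rcases h0 with rfl | rfl <;> simp
    have := abs_sub (s1 * c1) (s0 * c0)
    rw [a1, a0] at this
    linarith
  have e3 : s0 * b0 - s1 * b1 = 0 := by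
    by_contra hne
    have h3 : 1 ≤ |s0 * b0 - s1 * b1| := Int.one_le_abs hne
    have h4 : |(s0 * b0 - s1 * b1) * n| = |s0 * b0 - s1 * b1| * n := by
      rw [abs_mul, abs_of_nonneg (by positivity : (0 : ℤ) ≤ (n : ℤ))]
    rw [e1] at h4
    have h5 : (0 : ℤ) ≤ n := by positivity
    nlinarith
  have e4 : s1 * c1 - s0 * c0 = 0 := by rw [← e1, e3, zero_mul]
  constructor <;> linarith

theorem chen_main {m : ℕ} (f : Fin m → MvPolynomial (Fin 2) ℤ) (hnc : ∀ k z, f k ≠ MvPolynomial.C z)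
    (i j : Fin m) (hi : LinUnit (f i)) (hj : LinUnit (f j)) (hne : f j ≠ f i) (hne' : f j ≠ -f i) :
    ∃ (R n₀ : ℕ) (δ κ : ℝ), 0 < δ ∧ 0 < κ ∧ ∀ n : ℕ, n₀ ≤ n → NoFixed f n →
      κ * (n * Vn f n) ≤ ((Gx f i j R δ n).card : ℝ) := by
  classical
  obtain ⟨a0, b0, c0, h0, e0⟩ := hi
  obtain ⟨a1, b1, c1, h1, e1⟩ := hj
  obtain ⟨t, ht, c, hc, hch⟩ := chenI (DD f)
  have ht0 : (0 : ℝ) < t := by exact_mod_cast ht
  obtain ⟨β0, hβ0⟩ : ∃ β : ℕ, |b0| = β := ⟨_, Int.abs_eq_natAbs b0⟩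
  obtain ⟨γ0, hγ0⟩ : ∃ β : ℕ, |c0| = β := ⟨_, Int.abs_eq_natAbs c0⟩
  obtain ⟨β1, hβ1⟩ : ∃ β : ℕ, |b1| = β := ⟨_, Int.abs_eq_natAbs b1⟩
  obtain ⟨γ1, hγ1⟩ : ∃ β : ℕ, |c1| = β := ⟨_, Int.abs_eq_natAbs c1⟩
  obtain ⟨C0, hC0⟩ : ∃ C0 : ℕ, C0 = β0 + γ0 + β1 + γ1 + 1 := ⟨_, rfl⟩
  have hC01 : 1 ≤ C0 := by omega
  have hC0r : (1 : ℝ) ≤ C0 := by exact_mod_cast hC01
  obtain ⟨X₀, hX₀⟩ := hch (1 / (4 * C0)) (by positivity)
  obtain ⟨C, d, hsz⟩ := size_fam f
  obtain ⟨n1, hn1⟩ := non_unit f hnc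
  obtain ⟨X9, h9⟩ := eventually_atTop.1 ninth
  obtain ⟨cV, hcV, hVlow⟩ := Vn_low f
  set K := Real.exp (-(2 * (DD f : ℕ) * C0 : ℝ)) with hK
  have hK0 : 0 < K := Real.exp_pos _
  have e2 : ∀ᶠ n : ℕ in atTop, (2 : ℝ) ≤ (n : ℝ) ^ (1 / (t : ℝ)) :=
    ((tendsto_rpow_atTop (show (0 : ℝ) < 1 / t by positivity)).comp tendsto_natCast_atTop_atTop).eventually
      (eventually_ge_atTop 2)
  have e3 := log_small (2 * DD f) (16 * (DD f + 1) / (c * K * cV)) (by positivity)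
  obtain ⟨n2, hn2⟩ := eventually_atTop.1 (e2.and e3)
  refine ⟨t * (d + 1), X₀ + X9 + n1 + n2 + C + 2 * DD f + γ0 + γ1 + 4, 1 / (t : ℝ), c * K / 8,
    by positivity, by positivity, ?_⟩
  intro n hn hf
  obtain ⟨g2, g3⟩ := hn2 n (by omega)
  have hn4 : 4 ≤ n := by omega
  have hnr : (4 : ℝ) ≤ n := by exact_mod_cast hn4
  have hlog : 0 < Real.log n := Real.log_pos (by linarith)
  obtain ⟨u, hu⟩ : ∃ u : ℤ, u = -((a0 - b0) * (b0 * n + c0)) := ⟨_, rfl⟩
  obtain ⟨s, hs, A, B, hB, hAB, hw⟩ := window n hn4 u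
  have hss : s * s = 1 := by rcases hs with rfl | rfl <;> norm_num
  have hs0 : (a0 - b0) * (a0 - b0) = 1 := by rcases h0 with h | h <;> rw [h] <;> norm_num
  have hs1 : (a1 - b1) * (a1 - b1) = 1 := by rcases h1 with h | h <;> rw [h] <;> norm_num
  obtain ⟨h, hh⟩ : ∃ h : ℤ, h = -(s * (u + (a1 - b1) * (b1 * n + c1))) := ⟨_, rfl⟩
  have hue : (a0 - b0) * u = -(b0 * n + c0) := by
    rw [hu]
    calc (a0 - b0) * -((a0 - b0) * (b0 * n + c0)) = -(((a0 - b0) * (a0 - b0)) * (b0 * n + c0)) := by ring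
      _ = _ := by rw [hs0, one_mul]
  have hie : ∀ t : ℤ, (sub1 s u n (f i)).eval t = ((a0 - b0) * s) * t := by
    intro t
    rw [sub1_eval, lin_eval e0]
    calc a0 * (s * t + u) + b0 * (n - (s * t + u)) + c0 = (a0 - b0) * s * t + ((a0 - b0) * u + (b0 * n + c0)) := by ring
      _ = _ := by rw [hue]; ring
  have hje : ∀ t : ℤ, (sub1 s u n (f j)).eval t = ((a1 - b1) * s) * (t - h) := by
    intro t
    rw [sub1_eval, lin_eval e1]
    have q1 : (a1 - b1) * s * h = -((a1 - b1) * u + (b1 * n + c1)) := by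
      rw [hh]
      calc (a1 - b1) * s * -(s * (u + (a1 - b1) * (b1 * n + c1))) =
            -((s * s) * ((a1 - b1) * u + ((a1 - b1) * (a1 - b1)) * (b1 * n + c1))) := by ring
        _ = _ := by rw [hss, hs1, one_mul, one_mul]
    calc a1 * (s * t + u) + b1 * (n - (s * t + u)) + c1 = (a1 - b1) * s * t + ((a1 - b1) * u + (b1 * n + c1)) := by ring
      _ = (a1 - b1) * s * t - (a1 - b1) * s * h := by rw [q1]; ring
      _ = _ := by ring
  have hea : (a0 - b0) * s = 1 ∨ (a0 - b0) * s = -1 := by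
    rcases h0 with h | h <;> rcases hs with rfl | rfl <;> rw [h] <;> norm_num
  have heb : (a1 - b1) * s = 1 ∨ (a1 - b1) * s = -1 := by
    rcases h1 with h | h <;> rcases hs with rfl | rfl <;> rw [h] <;> norm_num
  -- the shift is not zero
  have hh0 : h ≠ 0 := by
    intro hz
    have q1 : u + (a1 - b1) * (b1 * n + c1) = 0 := by
      have q2 : s * (u + (a1 - b1) * (b1 * n + c1)) = 0 := by linarith
      rcases mul_eq_zero.1 q2 with q3 | q3
      · rw [q3] at hss; norm_num at hss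
      · exact q3
    rw [hu] at q1
    obtain ⟨r1, r2⟩ := shift_ne (s0 := a0 - b0) (s1 := a1 - b1) (b0 := b0) (c0 := c0) (b1 := b1) (c1 := c1) h0 h1
      (n := n) (by rw [hγ0, hγ1]; omega) (by linarith)
    rcases h0 with h0 | h0 <;> rcases h1 with h1 | h1 <;> rw [h0, h1] at r1 r2
    · apply hne
      have w1 : b0 = b1 := by linarith
      have w2 : c0 = c1 := by linarith
      have w3 : a0 = a1 := by linarith
      rw [e0, e1, w1, w2, w3]
    · apply hne'
      have w1 : b1 = -b0 := by linarith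
      have w2 : c1 = -c0 := by linarith
      have w3 : a1 = -a0 := by linarith
      rw [e0, e1, w1, w2, w3, map_neg, map_neg, map_neg]
      ring
    · apply hne'
      have w1 : b1 = -b0 := by linarith
      have w2 : c1 = -c0 := by linarith
      have w3 : a1 = -a0 := by linarith
      rw [e0, e1, w1, w2, w3, map_neg, map_neg, map_neg]
      ring
    · apply hne
      have w1 : b0 = b1 := by linarith
      have w2 : c0 = c1 := by linarith
      have w3 : a0 = a1 := by linarith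
      rw [e0, e1, w1, w2, w3]
  -- sizes
  have hnz : (0 : ℤ) < n := by omega
  have hn1z : (1 : ℤ) ≤ n := by omega
  have hua : |u| ≤ ((β0 : ℤ) + γ0) * n := by
    have q1 : |u| = |b0 * n + c0| := by
      rw [hu, abs_neg, abs_mul]
      rcases h0 with h | h <;> rw [h] <;> simp
    rw [q1]
    have q2 := abs_add_le (b0 * n) c0
    rw [abs_mul, abs_of_pos hnz, hβ0, hγ0] at q2
    have q3 : (γ0 : ℤ) ≤ γ0 * n := le_mul_of_one_le_right (Int.natCast_nonneg _) hn1z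
    calc |b0 * n + c0| ≤ β0 * n + γ0 := q2
      _ ≤ β0 * n + γ0 * n := by linarith
      _ = _ := by ring
  have hha : |h| ≤ ((β0 : ℤ) + γ0 + β1 + γ1) * n := by
    have q1 : |h| = |u + (a1 - b1) * (b1 * n + c1)| := by
      rw [hh, abs_neg, abs_mul]
      rcases hs with h | h <;> rw [h] <;> simp
    have q2 := abs_add_le u ((a1 - b1) * (b1 * n + c1))
    have q3 : |(a1 - b1) * (b1 * n + c1)| = |b1 * n + c1| := by
      rw [abs_mul]
      rcases h1 with h | h <;> rw [h] <;> simp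
    have q4 := abs_add_le (b1 * n) c1
    rw [abs_mul, abs_of_pos hnz, hβ1, hγ1] at q4
    have q5 : (γ1 : ℤ) ≤ γ1 * n := le_mul_of_one_le_right (Int.natCast_nonneg _) hn1z
    rw [q1]
    calc |u + (a1 - b1) * (b1 * n + c1)| ≤ |u| + |b1 * n + c1| := by rw [q3] at q2; exact q2
      _ ≤ ((β0 : ℤ) + γ0) * n + (β1 * n + γ1 * n) := by linarith
      _ = _ := by ring
  obtain ⟨X, hX⟩ : ∃ X : ℕ, X = C0 * n := ⟨_, rfl⟩
  have hnX : n ≤ X := by rw [hX]; exact Nat.le_mul_of_pos_left _ hC01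
  have hhX : h.natAbs ≤ X := by
    have q1 : (h.natAbs : ℤ) ≤ X := by
      rw [← Int.abs_eq_natAbs, hX, hC0]
      push_cast
      calc |h| ≤ ((β0 : ℤ) + γ0 + β1 + γ1) * n := hha
        _ ≤ ((β0 : ℤ) + γ0 + β1 + γ1 + 1) * n := by
          apply mul_le_mul_of_nonneg_right _ hnz.le
          linarith
    exact Int.ofNat_le.1 q1
  have hBX : B ≤ X := by
    have q1 : (B : ℤ) ≤ X := by
      rw [hX, hC0]
      push_cast
      have q2 : (0 : ℤ) ≤ ((β1 : ℤ) + γ1) * n := by positivity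
      calc (B : ℤ) ≤ n + |u| := hB
        _ ≤ n + ((β0 : ℤ) + γ0) * n + ((β1 : ℤ) + γ1) * n := by linarith
        _ = ((β0 : ℤ) + γ0 + β1 + γ1 + 1) * n := by ring
    exact Int.ofNat_le.1 q1
  have hABr : (n : ℝ) ≤ 4 * ((B : ℝ) - A) := by exact_mod_cast hAB
  have hθ : 1 / (4 * (C0 : ℝ)) * X ≤ (B : ℝ) - A := by
    have q1 : 1 / (4 * (C0 : ℝ)) * X = n / 4 := by
      rw [hX]; push_cast; field_simp
    rw [q1]; linarith
  set Y := ⌊(X : ℝ) ^ (1 / (t : ℝ))⌋₊ with hY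
  have hYX : Y ≤ X := by
    have q1 : (X : ℝ) ^ (1 / (t : ℝ)) ≤ X := by
      have q2 := Real.rpow_le_rpow_of_exponent_le (show (1 : ℝ) ≤ X by exact_mod_cast (show 1 ≤ X by omega))
        (show 1 / (t : ℝ) ≤ 1 by rw [div_le_one ht0]; exact_mod_cast ht)
      rwa [Real.rpow_one] at q2
    have q2 := Nat.floor_le_floor q1
    rwa [Nat.floor_natCast] at q2
  have hD := dat_line hs hf hie hje Y
  have hchen := hX₀ X (by omega) h hh0 hhX (OmL f n s u) hD A B hBX hθ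
  have hcount := count hs hf hea heb hie hje (fun k z hz => hn1 n (by omega) k s u hs z hz) ht g2
    (show C ≤ n by omega) hsz hnX (h9 X (by omega)) hw
  have hcountr : ((GI A B (Nat.sqrt X) X Y h (OmL f n s u)).card : ℝ) ≤
      (Gx f i j (t * (d + 1)) (1 / (t : ℝ)) n).card + 2 * DD f := by exact_mod_cast hcount
  have hVe : VV (Z0 (OmL f n s u)) 0 Y = VV (Zc (PP f n) s u) 0 Y := by
    unfold VV
    apply prod_congr rfl
    intro q hq
    rw [Z0_OmL hie (Pr_prime hq).pos]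
  have hcmp := VV_cmp (r := DD f) hC01 (n := n) (Y := Y) (by omega) (by rw [← hX]; exact hYX)
    (Z := Zc (PP f n) s u) (fun q hq => by rw [Zc_card f n hs hq.pos]; exact nu_le hf hq)
    (fun q hq => by rw [Zc_card f n hs hq.pos]; exact nu_lt hf hq)
  rw [← hVe, ← Vn_eq f n hs, ← hK] at hcmp
  have hV := hVlow n (by omega) hf
  have hV0 : 0 < Vn f n := lt_of_lt_of_le (by positivity) hV
  -- the error
  have herr : 2 * (DD f : ℝ) ≤ c * K / 8 * (n * Vn f n) := by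
    have q1 : 16 * ((DD f : ℝ) + 1) / (c * K * cV) * Real.log n ^ (2 * DD f) ≤ n := g3
    have q2 : cV / Real.log n ^ (2 * DD f) * n ≤ Vn f n * n := mul_le_mul_of_nonneg_right hV (by positivity)
    have q3 : 16 * ((DD f : ℝ) + 1) ≤ c * K * (cV / Real.log n ^ (2 * DD f) * n) := by
      rw [div_mul_eq_mul_div, div_le_iff₀ (by positivity)] at q1
      rw [show c * K * (cV / Real.log n ^ (2 * DD f) * n) = n * (c * K * cV) / Real.log n ^ (2 * DD f) by ring,
        le_div_iff₀ (by positivity)]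
      exact q1
    have q4 : c * K * (cV / Real.log n ^ (2 * DD f) * n) ≤ c * K * (Vn f n * n) :=
      mul_le_mul_of_nonneg_left q2 (by positivity)
    nlinarith
  have hfin : c * K / 4 * (n * Vn f n) ≤ c * ((B : ℝ) - A) * VV (Z0 (OmL f n s u)) 0 Y := by
    calc c * K / 4 * (n * Vn f n) = c * (n / 4) * (K * Vn f n) := by ring
      _ ≤ c * ((B : ℝ) - A) * VV (Z0 (OmL f n s u)) 0 Y := by
          apply mul_le_mul _ hcmp (by positivity) _
          · apply mul_le_mul_of_nonneg_left _ hc.le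
            linarith
          · have : 0 ≤ (B : ℝ) - A := by linarith
            positivity
  linarith

end Pool.Agent.Q56.LN
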