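import Pool.Agent.Q56.LN.PAP
import Pool.Agent.Q56.LN.Chen

/-!
# One prime value and almost prime values on the line `x + y = n`
-/

set_option autoImplicit false

namespace Pool.Agent.Q56.LN

open Finset Filter
open Pool.Agent.Y843.HS (Pr VV Pr_mem Pr_prime VV_split card_res)
open Pool.Agent.Y843.HG (Z0)
open Pool.Agent.Y843.CH (hr hr_lt hr_cast hr_eq_iff hr_zero_iff hr_nat)
open Pool.Agent.TH423.SH (PS)

/-- the range of the variable, for an arbitrary slope -/
theorem window2 (n : ℕ) (hn : 4 ≤ n) (s s' v : ℤ) (hs : s' = |s|) (hs1 : 1 ≤ s') : ∃ g e : ℤ, (g = 1 ∨ g = -1) ∧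
    (e = 1 ∨ e = -1) ∧ e * s = g * s' ∧ ∃ A B : ℕ, (B : ℤ) ≤ |v| + s' * n ∧ (n : ℤ) ≤ 4 * ((B : ℤ) - A) ∧
    ∀ p : ℕ, A < p → p ≤ B → ∀ x : ℤ, (p : ℤ) = g * s' * x + e * v → 1 ≤ x ∧ x ≤ n - 1 := by
  obtain ⟨e0, he0, hes⟩ : ∃ e0 : ℤ, (e0 = 1 ∨ e0 = -1) ∧ e0 * s = s' := by
    rcases abs_cases s with ⟨h1, _⟩ | ⟨h1, _⟩
    · exact ⟨1, Or.inl rfl, by rw [one_mul, hs, h1]⟩
    · exact ⟨-1, Or.inr rfl, by rw [neg_one_mul, hs, h1]⟩
  have hn' : (4 : ℤ) ≤ n := by exact_mod_cast hn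
  have hsn : (n : ℤ) ≤ s' * n := by nlinarith
  have hsn2 : 2 * (n : ℤ) - 4 ≤ s' * (2 * n - 4) := by nlinarith
  have habs : |e0 * v| = |v| := by rcases he0 with h | h <;> rw [h] <;> simp
  obtain ⟨w, hw⟩ : ∃ w : ℤ, w = e0 * v := ⟨_, rfl⟩
  rw [← hw] at habs
  have hwa1 : w ≤ |v| := by rw [← habs]; exact le_abs_self w
  have hwa2 : -w ≤ |v| := by rw [← habs]; exact neg_le_abs w
  obtain ⟨P, hP⟩ : ∃ P : ℤ, P = s' * n := ⟨_, rfl⟩
  have hP2 : s' * (2 * n - 4) = 2 * P - 4 * s' := by rw [hP]; ring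
  have hP1 : s' * (n - 1) = P - s' := by rw [hP]; ring
  rw [hP2] at hsn2
  rw [← hP] at hsn ⊢
  have hv0 := abs_nonneg v
  rcases le_total (2 * (-w)) P with h | h
  · refine ⟨1, e0, Or.inl rfl, he0, by rw [one_mul]; exact hes, (max 0 w).toNat, (w + (P - s')).toNat, ?_, ?_, ?_⟩
    · omega
    · rcases max_cases 0 w with h1 | h1 <;> omega
    · intro p h1 h2 x hx
      rw [← hw, one_mul] at hx
      have h3 : 0 < s' * x := by
        rcases max_cases 0 w with h3 | h3 <;> omega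
      have h4 : s' * x ≤ s' * (n - 1) := by
        rw [hP1]
        omega
      constructor
      · by_contra hcon
        push Not at hcon
        nlinarith
      · exact le_of_mul_le_mul_left h4 (by omega)
  · refine ⟨-1, -e0, Or.inr rfl, ?_, ?_, (max 0 (-w - P)).toNat, (-w - s').toNat, ?_, ?_, ?_⟩
    · rcases he0 with h | h <;> rw [h] <;> simp
    · rw [neg_mul, hes]; ring
    · omega
    · rcases max_cases 0 (-w - P) with h1 | h1 <;> omega
    · intro p h1 h2 x hx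
      have hx' : (p : ℤ) = -(s' * x) - w := by rw [hx, hw]; ring
      have h3 : s' * x < s' * n := by
        rw [← hP]
        rcases max_cases 0 (-w - P) with h3 | h3 <;> omega
      have h4 : s' * 1 ≤ s' * x := by
        rw [mul_one]
        omega
      constructor
      · exact le_of_mul_le_mul_left h4 (by omega)
      · have := lt_of_mul_lt_mul_left h3 (by omega)
        omega

/-- the residue class modulo the small primes -/
theorem exists_cls {m : ℕ} {f : Fin m → MvPolynomial (Fin 2) ℤ} {n : ℕ} (hf : NoFixed f n) (z : ℕ) :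
    ∃ x₀ : ℕ, ∀ q ∈ Pr 0 z, ¬ (q : ℤ) ∣ (PP f n).eval (x₀ : ℤ) := by
  classical
  have h1 := card_res (Pr 0 z) (fun p hp => Pr_prime hp)
    (fun q => (range q).filter (fun c : ℕ => ¬ (q : ℤ) ∣ (PP f n).eval (c : ℤ)))
    (fun p _ c hc => mem_range.1 (mem_filter.1 hc).1)
  have h2 : 0 < ∏ q ∈ Pr 0 z, ((range q).filter (fun c : ℕ => ¬ (q : ℤ) ∣ (PP f n).eval (c : ℤ))).card := by
    apply prod_pos
    intro q hq
    rw [card_pos]
    obtain ⟨x, hx⟩ := hf q (Pr_prime hq)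
    rw [← PP_eval] at hx
    refine ⟨hr x q, ?_⟩
    rw [mem_filter, mem_range]
    refine ⟨hr_lt x (Pr_prime hq).pos, ?_⟩
    intro h3
    apply hx
    rw [hr_cast x (Pr_prime hq).pos] at h3
    exact (dvd_eval_iff (PP f n) (Int.mod_modEq x q)).1 h3
  rw [← h1, card_pos] at h2
  obtain ⟨a, ha⟩ := h2
  rw [mem_filter] at ha
  refine ⟨a, fun q hq h3 => ?_⟩
  apply (mem_filter.1 (ha.2 q hq)).2
  have h4 : ((a % q : ℕ) : ℤ) ≡ (a : ℤ) [ZMOD q] := by
    push_cast
    exact Int.mod_modEq _ _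
  exact (dvd_eval_iff (PP f n) h4).2 h3

open Classical in
/-- the classes of `k x + w` for the roots `x` -/
noncomputable def Omk (P : Polynomial ℤ) (k w : ℤ) (q : ℕ) : Finset ℕ :=
  (((range q).filter (fun x : ℕ => (q : ℤ) ∣ P.eval (x : ℤ))).image (fun x : ℕ => hr (k * x + w) q)).erase 0

theorem card_roots {m : ℕ} (f : Fin m → MvPolynomial (Fin 2) ℤ) (n q : ℕ) :
    ((range q).filter (fun x : ℕ => (q : ℤ) ∣ (PP f n).eval (x : ℤ))).card = nu f n q := by
  classical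
  unfold nu
  congr 1
  apply filter_congr
  intro x _
  rw [PP_eval]

theorem Omk_facts {m : ℕ} {f : Fin m → MvPolynomial (Fin 2) ℤ} {n : ℕ} {k w e : ℤ}
    {i : Fin m} (hi : ∀ x : ℤ, k * x + w = e * (sub1 1 0 n (f i)).eval x) (he : e = 1 ∨ e = -1) {q : ℕ}
    (hq : q.Prime) (hk : ¬ (q : ℤ) ∣ k) :
    0 ∉ Omk (PP f n) k w q ∧ (Omk (PP f n) k w q).card + 1 ≤ nu f n q ∧ (∀ c ∈ Omk (PP f n) k w q, c < q) ∧
    ∀ (p : ℕ) (x : ℤ), (p : ℤ) = k * x + w → p % q ∉ Z0 (Omk (PP f n) k w) q → ¬ (q : ℤ) ∣ (PP f n).eval x := by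
  classical
  have h0 : 0 ∉ Omk (PP f n) k w q := by unfold Omk; simp
  refine ⟨h0, ?_, ?_, ?_⟩
  · -- the root of `f i`
    have hcop : IsCoprime k (q : ℤ) := by
      rw [isCoprime_comm]
      exact (Prime.coprime_iff_not_dvd (Nat.prime_iff_prime_int.1 hq)).2 hk
    obtain ⟨u, v, huv⟩ := hcop
    have h1 : k * (hr (-w * u) q : ℕ) + w ≡ 0 [ZMOD q] := by
      rw [hr_cast _ hq.pos]
      have h2 : k * (-w * u % q) + w ≡ k * (-w * u) + w [ZMOD q] :=
        ((Int.mod_modEq (-w * u) q).mul_left k).add_right w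
      refine h2.trans ?_
      rw [Int.modEq_zero_iff_dvd]
      refine ⟨w * v, ?_⟩
      have h3 : w * (u * k + v * q) = w := by rw [huv, mul_one]
      linear_combination -h3
    have hroot : (q : ℤ) ∣ (PP f n).eval ((hr (-w * u) q : ℕ) : ℤ) := by
      have h2 : (q : ℤ) ∣ (sub1 1 0 n (f i)).eval ((hr (-w * u) q : ℕ) : ℤ) := by
        have h3 := Int.modEq_zero_iff_dvd.1 h1
        rw [hi] at h3
        rcases he with h | h
        · rw [h, one_mul] at h3; exact h3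
        · rw [h, neg_one_mul] at h3; exact (dvd_neg).1 h3
      refine h2.trans ?_
      rw [PP_eval]
      have := dvd_prod_of_mem (fun k => ev (f k) ((hr (-w * u) q : ℕ) : ℤ) (n - ((hr (-w * u) q : ℕ) : ℤ))) (mem_univ i)
      rw [sub1_eval, one_mul, add_zero]
      exact this
    have hmem : 0 ∈ ((range q).filter (fun x : ℕ => (q : ℤ) ∣ (PP f n).eval (x : ℤ))).image
        (fun x : ℕ => hr (k * x + w) q) := by
      rw [mem_image]
      refine ⟨hr (-w * u) q, ?_, ?_⟩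
      · rw [mem_filter, mem_range]
        exact ⟨hr_lt _ hq.pos, hroot⟩
      · rw [hr_zero_iff _ hq.pos]
        exact Int.modEq_zero_iff_dvd.1 h1
    unfold Omk
    rw [card_erase_of_mem hmem]
    have h2 : 0 < (((range q).filter (fun x : ℕ => (q : ℤ) ∣ (PP f n).eval (x : ℤ))).image
        (fun x : ℕ => hr (k * x + w) q)).card := card_pos.2 ⟨0, hmem⟩
    have h3 : (((range q).filter (fun x : ℕ => (q : ℤ) ∣ (PP f n).eval (x : ℤ))).image
        (fun x : ℕ => hr (k * x + w) q)).card ≤ nu f n q := by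
      refine card_image_le.trans ?_
      rw [card_roots]
    omega
  · intro c hc
    unfold Omk at hc
    obtain ⟨x, _, rfl⟩ := mem_image.1 (mem_of_mem_erase hc)
    exact hr_lt _ hq.pos
  · intro p x hp hpq hd
    apply hpq
    have h1 : p % q = hr (k * ((hr x q : ℕ) : ℤ) + w) q := by
      have h2 : p % q = hr (p : ℤ) q := (hr_nat p hq.pos).symm
      rw [h2, hr_eq_iff _ _ hq.pos, hp, hr_cast _ hq.pos]
      exact (((Int.mod_modEq x q).mul_left k).add_right w).symm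
    unfold Z0
    rw [mem_insert]
    by_cases h2 : p % q = 0
    · exact Or.inl h2
    · right
      unfold Omk
      rw [mem_erase]
      refine ⟨h2, mem_image.2 ⟨hr x q, ?_, h1.symm⟩⟩
      rw [mem_filter, mem_range]
      refine ⟨hr_lt _ hq.pos, ?_⟩
      rw [hr_cast _ hq.pos]
      exact (dvd_eval_iff (PP f n) (Int.mod_modEq x q)).2 hd

/-- comparison of the sieve products -/
theorem WW_cmp {m : ℕ} {f : Fin m → MvPolynomial (Fin 2) ℤ} {n : ℕ} (hf : NoFixed f n) (m₀ Y : ℕ)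
    (Om : ℕ → Finset ℕ) (hOm : ∀ q ∈ PS m₀ Y, (Om q).card + 1 ≤ nu f n q) :
    VV (Zc (PP f n) 1 0) 0 Y ≤ WW m₀ Y Om := by
  classical
  have hnu : ∀ q : ℕ, q.Prime → 0 ≤ 1 - (nu f n q : ℝ) / q ∧ 1 - (nu f n q : ℝ) / q ≤ 1 := by
    intro q hq
    have hq0 : (0 : ℝ) < q := by exact_mod_cast hq.pos
    constructor
    · rw [sub_nonneg, div_le_one hq0]
      exact_mod_cast (nu_lt hf hq).le
    · have : (0 : ℝ) ≤ (nu f n q : ℝ) / q := by positivity
      linarith
  have hsub : PS m₀ Y ⊆ Pr 0 Y := by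
    intro q hq
    obtain ⟨a, b, c⟩ := PS_sub hq
    exact Pr_mem.2 ⟨⟨a.pos, c⟩, a⟩
  have h1 : VV (Zc (PP f n) 1 0) 0 Y = ∏ q ∈ Pr 0 Y, (1 - (nu f n q : ℝ) / q) := by
    unfold VV
    apply prod_congr rfl
    intro q hq
    rw [Zc_card f n (Or.inl rfl) (Pr_prime hq).pos]
  rw [h1, ← prod_sdiff hsub]
  calc (∏ q ∈ Pr 0 Y \ PS m₀ Y, (1 - (nu f n q : ℝ) / q)) * ∏ q ∈ PS m₀ Y, (1 - (nu f n q : ℝ) / q)
      ≤ ∏ q ∈ PS m₀ Y, (1 - (nu f n q : ℝ) / q) := by
        apply mul_le_of_le_one_left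
        · exact prod_nonneg fun q hq => (hnu q (PS_sub hq).1).1
        · apply Finset.prod_le_one
          · intro q hq
            exact (hnu q (Pr_prime (Finset.mem_sdiff.1 hq).1)).1
          · intro q hq
            exact (hnu q (Pr_prime (Finset.mem_sdiff.1 hq).1)).2
    _ ≤ WW m₀ Y Om := by
        unfold WW
        apply Finset.prod_le_prod
        · intro q hq
          exact (hnu q (PS_sub hq).1).1
        · intro q hq
          have hq0 : (0 : ℝ) < q := by exact_mod_cast (PS_sub hq).1.pos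
          have h2 : ((Om q).card + 1 : ℝ) ≤ nu f n q := by exact_mod_cast hOm q hq
          have h3 : ((Om q).card + 1 : ℝ) / q ≤ (nu f n q : ℝ) / q := div_le_div_of_nonneg_right h2 hq0.le
          linarith

end Pool.Agent.Q56.LN
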