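import Pool.Agent.Q56.LN.One

/-!
# One prime value and almost prime values on the line `x + y = n`: the theorem
-/

set_option autoImplicit false

namespace Pool.Agent.Q56.LN

open Finset Filter
open Pool.Agent.Y843.HS (Pr VV Pr_mem Pr_prime VV_split card_res)
open Pool.Agent.Y843.HG (Z0)
open Pool.Agent.Y843.CH (hr hr_lt hr_cast hr_eq_iff hr_zero_iff hr_nat)
open Pool.Agent.TH423.SH (PS)

theorem one_prime {m : ℕ} (f : Fin m → MvPolynomial (Fin 2) ℤ) (hnc : ∀ k z, f k ≠ MvPolynomial.C z)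
    (i : Fin m) (a b c : ℤ) (hab : a ≠ b)
    (hfi : f i = MvPolynomial.C a * MvPolynomial.X 0 + MvPolynomial.C b * MvPolynomial.X 1 + MvPolynomial.C c) :
    ∃ (R n₀ : ℕ) (δ κ : ℝ), 0 < δ ∧ 0 < κ ∧ ∀ n : ℕ, n₀ ≤ n → NoFixed f n →
      ∃ S : Finset ℕ, κ * (n * Vn f n) ≤ (S.card : ℝ) ∧ ∀ x ∈ S, 0 < x ∧ x < n ∧
        (ev (f i) x (n - x)).natAbs.Prime ∧ ∀ k, AP R ((n : ℝ) ^ δ) (ev (f k) x (n - x)) := by
  classical
  obtain ⟨z0, t, ht, hpap⟩ := pap (DD f)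
  have ht0 : (0 : ℝ) < t := by exact_mod_cast ht
  obtain ⟨s', hs'⟩ : ∃ s' : ℕ, |a - b| = s' := ⟨_, Int.abs_eq_natAbs _⟩
  obtain ⟨β, hβ⟩ : ∃ β : ℕ, |b| = β := ⟨_, Int.abs_eq_natAbs b⟩
  obtain ⟨γ, hγ⟩ : ∃ β : ℕ, |c| = β := ⟨_, Int.abs_eq_natAbs c⟩
  have hs'1 : 1 ≤ s' := by
    have : 0 < |a - b| := abs_pos.2 (sub_ne_zero.2 hab)
    omega
  obtain ⟨z, hz⟩ : ∃ z, z = max z0 s' := ⟨_, rfl⟩
  obtain ⟨M, hM⟩ : ∃ M, M = ∏ q ∈ Pr 0 z, q := ⟨_, rfl⟩
  have hM1 : 1 ≤ M := by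
    rw [hM]
    exact Nat.one_le_iff_ne_zero.2 (prod_ne_zero_iff.2 fun p hp => (Pr_prime hp).ne_zero)
  obtain ⟨m₀, hm₀⟩ : ∃ m₀, m₀ = s' * M := ⟨_, rfl⟩
  have hm₀1 : 1 ≤ m₀ := by rw [hm₀]; exact Nat.mul_pos hs'1 hM1
  have hdM : ∀ q : ℕ, q.Prime → q ∣ m₀ → q ∈ Pr 0 z := by
    intro q hq hd
    rw [hm₀] at hd
    rcases (Nat.Prime.dvd_mul hq).1 hd with h | h
    · rw [Pr_mem]
      refine ⟨⟨hq.pos, ?_⟩, hq⟩
      have := Nat.le_of_dvd (by omega) h
      rw [hz]; exact this.trans (le_max_right _ _)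
    · rw [hM, hq.prime.dvd_finsetProd_iff] at h
      obtain ⟨p, hp, hqp⟩ := h
      rw [(Nat.prime_dvd_prime_iff_eq hq (Pr_prime hp)).1 hqp]
      exact hp
  have hMd : ∀ q ∈ Pr 0 z, q ∣ M := fun q hq => by rw [hM]; exact dvd_prod_of_mem _ hq
  obtain ⟨c1, hc1, hθ⟩ := hpap m₀ hm₀1 (fun p hp hpz => by
    rw [hm₀]
    refine Dvd.dvd.mul_left (hMd p (Pr_mem.2 ⟨⟨hp.pos, ?_⟩, hp⟩)) _
    rw [hz]; exact hpz.trans (le_max_left _ _))
  obtain ⟨C0, hC0⟩ : ∃ C0 : ℕ, C0 = β + γ + s' := ⟨_, rfl⟩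
  have hC01 : 1 ≤ C0 := by omega
  have hC0r : (1 : ℝ) ≤ C0 := by exact_mod_cast hC01
  obtain ⟨X₀, hX₀⟩ := hθ (1 / (4 * C0)) (by positivity)
  obtain ⟨C, d, hsz⟩ := size_fam f
  obtain ⟨n1, hn1⟩ := non_unit f hnc
  obtain ⟨cV, hcV, hVlow⟩ := Vn_low f
  set K := Real.exp (-(2 * (DD f : ℕ) * C0 : ℝ)) with hK
  have hK0 : 0 < K := Real.exp_pos _
  have e2 : ∀ᶠ n : ℕ in atTop, (2 : ℝ) ≤ (n : ℝ) ^ (1 / (t : ℝ)) :=
    ((tendsto_rpow_atTop (show (0 : ℝ) < 1 / t by positivity)).comp tendsto_natCast_atTop_atTop).eventually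
      (eventually_ge_atTop 2)
  have e3 := log_small (2 * DD f) (16 * (DD f + 1) / (c1 * K * cV)) (by positivity)
  obtain ⟨n2, hn2⟩ := eventually_atTop.1 (e2.and e3)
  refine ⟨t * (d + 1), X₀ + n1 + n2 + C + 2 * DD f + 4, 1 / (t : ℝ), c1 * K / 8,
    by positivity, by positivity, ?_⟩
  intro n hn hf
  obtain ⟨g2, g3⟩ := hn2 n (by omega)
  have hn4 : 4 ≤ n := by omega
  have hnr : (4 : ℝ) ≤ n := by exact_mod_cast hn4
  have hlog : 0 < Real.log n := Real.log_pos (by linarith)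
  obtain ⟨v, hv⟩ : ∃ v : ℤ, v = b * n + c := ⟨_, rfl⟩
  obtain ⟨g, e, hg, he, hge, A, B, hB, hAB, hw⟩ := window2 n hn4 (a - b) s' v hs'.symm (by exact_mod_cast hs'1)
  have hgg : g * g = 1 := by rcases hg with h | h <;> rw [h] <;> norm_num
  have hee : e * e = 1 := by rcases he with h | h <;> rw [h] <;> norm_num
  have hs'0 : (s' : ℤ) ≠ 0 := by exact_mod_cast (show s' ≠ 0 by omega)
  -- the value of `f i`
  have hie : ∀ x : ℤ, g * s' * x + e * v = e * (sub1 1 0 n (f i)).eval x := by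
    intro x
    rw [sub1_eval, lin_eval hfi, hv]
    linear_combination (-x) * hge
  -- the residue class
  obtain ⟨x₀, hx₀⟩ := exists_cls hf z
  obtain ⟨a₀, ha₀⟩ : ∃ a₀ : ℕ, a₀ = hr (g * s' * x₀ + e * v) m₀ := ⟨_, rfl⟩
  have hm₀0 : 0 < m₀ := hm₀1
  have ha₀m : (a₀ : ℤ) ≡ g * s' * x₀ + e * v [ZMOD m₀] := by
    rw [ha₀, hr_cast _ hm₀0]
    exact Int.mod_modEq _ _
  have hcop : a₀.Coprime m₀ := by
    rw [Nat.coprime_comm]
    apply Nat.Coprime.symm
    apply Nat.Coprime.symm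
    rw [Nat.coprime_iff_gcd_eq_one]
    by_contra hne
    obtain ⟨q, hq, hqd⟩ := Nat.exists_prime_and_dvd hne
    have hq1 : q ∣ m₀ := hqd.trans (Nat.gcd_dvd_left _ _)
    have hq2 : q ∣ a₀ := hqd.trans (Nat.gcd_dvd_right _ _)
    apply hx₀ q (hdM q hq hq1)
    have h1 : (q : ℤ) ∣ g * s' * x₀ + e * v := by
      have h2 : (a₀ : ℤ) ≡ g * s' * x₀ + e * v [ZMOD q] :=
        ha₀m.of_dvd (by exact_mod_cast hq1)
      have h3 : (q : ℤ) ∣ a₀ := by exact_mod_cast hq2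
      exact (Int.ModEq.dvd_iff h2).1 h3
    rw [hie] at h1
    have h2 : (q : ℤ) ∣ (sub1 1 0 n (f i)).eval (x₀ : ℤ) := by
      rcases he with h | h
      · rwa [h, one_mul] at h1
      · rw [h, neg_one_mul] at h1
        exact (dvd_neg).1 h1
    refine h2.trans ?_
    unfold PP
    rw [Polynomial.eval_prod]
    exact dvd_prod_of_mem (fun k => (sub1 1 0 n (f k)).eval (x₀ : ℤ)) (mem_univ i)
  -- sizes
  have hnz : (0 : ℤ) < n := by omega
  have hn1z : (1 : ℤ) ≤ n := by omega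
  have hva : |v| ≤ ((β : ℤ) + γ) * n := by
    rw [hv]
    have q2 := abs_add_le (b * n) c
    rw [abs_mul, abs_of_pos hnz, hβ, hγ] at q2
    have q3 : (γ : ℤ) ≤ γ * n := le_mul_of_one_le_right (Int.natCast_nonneg _) hn1z
    calc |b * n + c| ≤ β * n + γ := q2
      _ ≤ β * n + γ * n := by linarith
      _ = _ := by ring
  obtain ⟨X, hX⟩ : ∃ X : ℕ, X = C0 * n := ⟨_, rfl⟩
  have hnX : n ≤ X := by rw [hX]; exact Nat.le_mul_of_pos_left _ hC01
  have hBX : B ≤ X := by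
    have q1 : (B : ℤ) ≤ X := by
      rw [hX, hC0]
      push_cast
      calc (B : ℤ) ≤ |v| + s' * n := hB
        _ ≤ ((β : ℤ) + γ) * n + s' * n := by linarith
        _ = ((β : ℤ) + γ + s') * n := by ring
    exact Int.ofNat_le.1 q1
  have hABr : (n : ℝ) ≤ 4 * ((B : ℝ) - A) := by exact_mod_cast hAB
  have hθ : 1 / (4 * (C0 : ℝ)) * X ≤ (B : ℝ) - A := by
    have q1 : 1 / (4 * (C0 : ℝ)) * X = n / 4 := by
      rw [hX]; push_cast; field_simp
    rw [q1]; linarith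
  obtain ⟨Y, hY⟩ : ∃ Y : ℕ, Y = ⌊(X : ℝ) ^ (1 / (t : ℝ))⌋₊ := ⟨_, rfl⟩
  have hYX : Y ≤ X := by
    have q1 : (X : ℝ) ^ (1 / (t : ℝ)) ≤ X := by
      have q2 := Real.rpow_le_rpow_of_exponent_le (show (1 : ℝ) ≤ X by exact_mod_cast (show 1 ≤ X by omega))
        (show 1 / (t : ℝ) ≤ 1 by rw [div_le_one ht0]; exact_mod_cast ht)
      rwa [Real.rpow_one] at q2
    have q2 := Nat.floor_le_floor q1
    rwa [Nat.floor_natCast, ← hY] at q2
  obtain ⟨Om, hOmd⟩ : ∃ Om : ℕ → Finset ℕ, Om = Omk (PP f n) (g * s') (e * v) := ⟨_, rfl⟩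
  have hqs : ∀ q ∈ PS m₀ Y, ¬ (q : ℤ) ∣ g * s' := by
    intro q hq hd
    obtain ⟨q1, q2, q3⟩ := PS_sub hq
    apply q2
    rw [hm₀]
    apply Dvd.dvd.mul_right
    have h1 : (q : ℤ) ∣ s' := by
      rcases hg with h | h
      · rwa [h, one_mul] at hd
      · rw [h, neg_one_mul] at hd
        exact (dvd_neg).1 hd
    exact_mod_cast h1
  have hfacts : ∀ q ∈ PS m₀ Y, 0 ∉ Om q ∧ (Om q).card + 1 ≤ nu f n q ∧ (∀ c ∈ Om q, c < q) ∧
      ∀ (p : ℕ) (x : ℤ), (p : ℤ) = g * s' * x + e * v → p % q ∉ Z0 Om q → ¬ (q : ℤ) ∣ (PP f n).eval x := by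
    intro q hq
    rw [hOmd]
    exact Omk_facts hie he (PS_sub hq).1 (hqs q hq)
  have hAdm : AdmP (DD f) m₀ Y Om := by
    intro q hq
    obtain ⟨h1, h2, h3, _⟩ := hfacts q hq
    have h4 := nu_le hf (PS_sub hq).1
    have h5 := nu_lt hf (PS_sub hq).1
    exact ⟨by omega, by omega, h1, h3⟩
  have hmain := hX₀ X (by omega) A B hBX hθ a₀ hcop Om (by rw [← hY]; exact hAdm)
  rw [← hY] at hmain
  obtain ⟨T, hT⟩ : ∃ T : Finset ℕ, T = TP m₀ a₀ Y A B Om := ⟨_, rfl⟩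
  rw [← hT] at hmain
  -- the variable belonging to a prime
  have hvar : ∀ p ∈ T, ∃ x : ℕ, (p : ℤ) = g * s' * x + e * v ∧ 0 < x ∧ x < n ∧ (x : ℤ) ≡ x₀ [ZMOD M] := by
    intro p hp
    rw [hT] at hp
    unfold TP at hp
    rw [mem_filter, mem_Ioc] at hp
    obtain ⟨⟨pA, pB⟩, p1, p2, p3⟩ := hp
    have h1 : (p : ℤ) ≡ g * s' * x₀ + e * v [ZMOD m₀] := by
      have h2 : (p : ℤ) ≡ a₀ [ZMOD m₀] := by
        have : p ≡ a₀ [MOD m₀] := p2
        exact_mod_cast (Int.natCast_modEq_iff.2 this)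
      exact h2.trans ha₀m
    obtain ⟨k, hk⟩ := (Int.modEq_iff_dvd.1 h1.symm)
    rw [hm₀] at hk
    push_cast at hk
    have hx : (p : ℤ) = g * s' * (x₀ + g * M * k) + e * v := by
      have h3 : g * s' * (x₀ + g * M * k) = g * s' * x₀ + (g * g) * (s' * M * k) := by ring
      rw [h3, hgg, one_mul]
      linarith
    obtain ⟨w1, w2⟩ := hw p pA pB _ hx
    refine ⟨(x₀ + g * M * k).toNat, ?_, ?_, ?_, ?_⟩
    · rw [Int.toNat_of_nonneg (by omega)]; exact hx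
    · omega
    · omega
    · rw [Int.toNat_of_nonneg (by omega)]
      rw [Int.modEq_iff_dvd]
      exact ⟨-(g * k), by ring⟩
  choose! ξ hξ1 hξ2 hξ3 hξ4 using hvar
  have hinj : Set.InjOn ξ (T : Set ℕ) := by
    intro p hp p' hp' hpp
    have h1 := hξ1 p hp
    have h2 := hξ1 p' hp'
    rw [hpp] at h1
    have : (p : ℤ) = p' := h1.trans h2.symm
    exact_mod_cast this
  set S0 := T.image ξ with hS0
  have hS0c : S0.card = T.card := card_image_of_injOn hinj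
  set S := S0.filter (fun x : ℕ => ¬ ∃ k, ((sub1 1 0 n (f k)).eval (x : ℤ)).natAbs = 1) with hS
  have hsplit := card_filter_add_card_filter_not (s := S0)
    (fun x : ℕ => ∃ k, ((sub1 1 0 n (f k)).eval (x : ℤ)).natAbs = 1)
  have hfew := few_fam f n 1 0 (fun k z hz => hn1 n (by omega) k 1 0 (Or.inl rfl) z hz) S0
  have hcard : (T.card : ℝ) ≤ S.card + 2 * DD f := by
    have hSs : (S0.filter (fun x : ℕ => ∃ k, ((sub1 1 0 n (f k)).eval (x : ℤ)).natAbs = 1)).card + S.card = S0.card := by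
      rw [hS]
      convert hsplit
    have : T.card ≤ S.card + 2 * DD f := by omega
    exact_mod_cast this
  refine ⟨S, ?_, ?_⟩
  · -- the count
    have hcmp := VV_cmp (r := DD f) hC01 (n := n) (Y := Y) (by omega) (by rw [← hX]; exact hYX)
      (Z := Zc (PP f n) 1 0) (fun q hq => by rw [Zc_card f n (Or.inl rfl) hq.pos]; exact nu_le hf hq)
      (fun q hq => by rw [Zc_card f n (Or.inl rfl) hq.pos]; exact nu_lt hf hq)
    rw [← Vn_eq f n (Or.inl rfl), ← hK] at hcmp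
    have hWc := WW_cmp hf m₀ Y Om (fun q hq => (hfacts q hq).2.1)
    have hV := hVlow n (by omega) hf
    have hV0 : 0 < Vn f n := lt_of_lt_of_le (by positivity) hV
    -- the error
    have herr : 2 * (DD f : ℝ) ≤ c1 * K / 8 * (n * Vn f n) := by
      have q1 : 16 * ((DD f : ℝ) + 1) / (c1 * K * cV) * Real.log n ^ (2 * DD f) ≤ n := g3
      have q2 : cV / Real.log n ^ (2 * DD f) * n ≤ Vn f n * n := mul_le_mul_of_nonneg_right hV (by positivity)
      have q3 : 16 * ((DD f : ℝ) + 1) ≤ c1 * K * (cV / Real.log n ^ (2 * DD f) * n) := by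
        rw [div_mul_eq_mul_div, div_le_iff₀ (by positivity)] at q1
        rw [show c1 * K * (cV / Real.log n ^ (2 * DD f) * n) = n * (c1 * K * cV) / Real.log n ^ (2 * DD f) by ring,
          le_div_iff₀ (by positivity)]
        exact q1
      have q4 : c1 * K * (cV / Real.log n ^ (2 * DD f) * n) ≤ c1 * K * (Vn f n * n) :=
        mul_le_mul_of_nonneg_left q2 (by positivity)
      nlinarith
    have hfin : c1 * K / 4 * (n * Vn f n) ≤ c1 * ((B : ℝ) - A) * WW m₀ Y Om := by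
      calc c1 * K / 4 * (n * Vn f n) = c1 * (n / 4) * (K * Vn f n) := by ring
        _ ≤ c1 * ((B : ℝ) - A) * WW m₀ Y Om := by
            apply mul_le_mul _ (hcmp.trans hWc) (by positivity) _
            · apply mul_le_mul_of_nonneg_left _ hc1.le
              linarith
            · have : 0 ≤ (B : ℝ) - A := by linarith
              positivity
    linarith
  · intro x hx
    rw [hS, mem_filter] at hx
    obtain ⟨hx, hx1⟩ := hx
    push Not at hx1
    rw [hS0, mem_image] at hx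
    obtain ⟨p, hp, rfl⟩ := hx
    have hpT := hp
    rw [hT] at hp
    unfold TP at hp
    rw [mem_filter, mem_Ioc] at hp
    obtain ⟨⟨pA, pB⟩, p1, p2, p3⟩ := hp
    have k1 := hξ1 p hpT
    refine ⟨hξ2 p hpT, hξ3 p hpT, ?_, ?_⟩
    · rw [hie, sub1_eval, one_mul, add_zero] at k1
      have h1 : (ev (f i) (ξ p) (n - ξ p)).natAbs = p := by
        have h2 := congrArg Int.natAbs k1
        rw [Int.natAbs_natCast, Int.natAbs_mul] at h2
        have h3 : e.natAbs = 1 := by rcases he with h | h <;> rw [h] <;> rfl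
        rw [h3, one_mul] at h2
        exact h2.symm
      rw [h1]
      exact p1
    · intro k
      have hval : (sub1 1 0 n (f k)).eval ((ξ p : ℕ) : ℤ) = ev (f k) (ξ p) (n - ξ p) := by
        rw [sub1_eval, one_mul, add_zero]
      have hxl : ((ξ p : ℕ) : ℤ) < n := by exact_mod_cast hξ3 p hpT
      apply AP_of ht g2 (show C ≤ n by omega)
      · apply hsz k _ _ n (by omega)
        · rw [abs_le]; constructor <;> omega
        · rw [abs_le]; constructor <;> omega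
      · rw [← hval]; exact hx1 k
      · intro q hq hd
        by_contra hcon
        push Not at hcon
        have hnXr : (n : ℝ) ^ (1 / (t : ℝ)) ≤ (X : ℝ) ^ (1 / (t : ℝ)) :=
          Real.rpow_le_rpow (Nat.cast_nonneg _) (by exact_mod_cast hnX) (by positivity)
        have hqY : q ≤ Y := by rw [hY]; exact Nat.le_floor (hcon.trans hnXr)
        have hdP : (q : ℤ) ∣ (PP f n).eval ((ξ p : ℕ) : ℤ) := by
          refine hd.trans ?_
          rw [PP_eval]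
          exact dvd_prod_of_mem (fun k => ev (f k) ((ξ p : ℕ) : ℤ) (n - ((ξ p : ℕ) : ℤ))) (mem_univ k)
        by_cases hqm : q ∣ m₀
        · have hqz := hdM q hq hqm
          apply hx₀ q hqz
          have h1 : ((ξ p : ℕ) : ℤ) ≡ x₀ [ZMOD q] := (hξ4 p hpT).of_dvd (by exact_mod_cast hMd q hqz)
          exact (dvd_eval_iff (PP f n) h1).1 hdP
        · have hqP : q ∈ PS m₀ Y := mem_PS.2 ⟨hq, hqm, hqY⟩
          exact (hfacts q hqP).2.2.2 p _ k1 (p3 q hqP) hdP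

end Pool.Agent.Q56.LN
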