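import Pool.Agent.Q56.LN.Loc
import Pool.Agent.Y843.HG.Prs

/-!
# The sieve product over a longer range
-/

set_option autoImplicit false

namespace Pool.Agent.Q56.LN

open Finset Filter
open Pool.Agent.Y843.HS (Pr VV Pr_mem Pr_prime VV_split)
open Pool.Agent.Y843.HG (VV_low)

theorem log_small (k : ℕ) (M : ℝ) (hM : 0 < M) : ∀ᶠ n : ℕ in atTop, M * Real.log n ^ k ≤ n := by
  have h1 := (Real.isLittleO_pow_log_id_atTop (n := k)).bound (show (0 : ℝ) < 1 / M by positivity)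
  have h2 := (tendsto_natCast_atTop_atTop (R := ℝ)).eventually h1
  filter_upwards [h2, eventually_ge_atTop 1] with n hn hn1
  have hn0 : (1 : ℝ) ≤ n := by exact_mod_cast hn1
  have hl : 0 ≤ Real.log n := Real.log_nonneg hn0
  rw [id, Real.norm_of_nonneg (by positivity), Real.norm_of_nonneg (by positivity)] at hn
  calc M * Real.log n ^ k ≤ M * (1 / M * n) := mul_le_mul_of_nonneg_left hn hM.le
    _ = n := by field_simp

theorem one_sub_ge {y : ℝ} (hy0 : 0 ≤ y) (hy : y ≤ 1 / 2) : Real.exp (-(2 * y)) ≤ 1 - y := by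
  have h1 : 0 < 1 - y := by linarith
  have h2 := Real.one_sub_inv_le_log_of_pos h1
  have h3 : -(2 * y) ≤ Real.log (1 - y) := by
    refine le_trans ?_ h2
    have h4 : (1 - y)⁻¹ ≤ 1 + 2 * y := by
      rw [inv_le_iff_one_le_mul₀ h1]
      nlinarith
    linarith
  calc Real.exp (-(2 * y)) ≤ Real.exp (Real.log (1 - y)) := Real.exp_le_exp.2 h3
    _ = 1 - y := Real.exp_log h1

/-- the product over the primes of `(n, C n]` is bounded from below -/
theorem VV_tail (r C : ℕ) {n : ℕ} (hn : 2 * r + 1 ≤ n) (Z : ℕ → Finset ℕ) (hZ : ∀ q : ℕ, q.Prime → (Z q).card ≤ r) :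
    Real.exp (-(2 * r * C : ℝ)) ≤ VV Z n (C * n) := by
  have hn0 : (0 : ℝ) < n := by exact_mod_cast (show 0 < n by omega)
  have hnr : (2 * r + 1 : ℝ) ≤ n := by exact_mod_cast hn
  have h1 : ∀ q ∈ Pr n (C * n), Real.exp (-(2 * (r / n : ℝ))) ≤ 1 - ((Z q).card : ℝ) / q := by
    intro q hq
    obtain ⟨⟨h1, h2⟩, h3⟩ := Pr_mem.1 hq
    have hq0 : (n : ℝ) < q := by exact_mod_cast h1
    have h4 : ((Z q).card : ℝ) / q ≤ r / n := by
      apply div_le_div₀ (Nat.cast_nonneg _) (by exact_mod_cast hZ q h3) hn0 hq0.le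
    have h5 : (r : ℝ) / n ≤ 1 / 2 := by
      rw [div_le_div_iff₀ hn0 (by norm_num)]
      linarith
    have h6 := one_sub_ge (y := (r : ℝ) / n) (by positivity) h5
    linarith
  have h2 : (Pr n (C * n)).card ≤ C * n := by
    calc (Pr n (C * n)).card ≤ (Ioc n (C * n)).card := by
          unfold Pr
          exact card_filter_le _ _
      _ = C * n - n := Nat.card_Ioc _ _
      _ ≤ C * n := Nat.sub_le _ _
  unfold VV
  calc Real.exp (-(2 * r * C : ℝ)) = Real.exp (-(2 * (r / n : ℝ))) ^ (C * n) := by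
        rw [← Real.exp_nat_mul]
        congr 1
        push_cast
        field_simp
    _ ≤ Real.exp (-(2 * (r / n : ℝ))) ^ (Pr n (C * n)).card := by
        apply pow_le_pow_of_le_one (Real.exp_pos _).le _ h2
        rw [Real.exp_le_one_iff]
        have : (0 : ℝ) ≤ (r : ℝ) / n := by positivity
        linarith
    _ = ∏ q ∈ Pr n (C * n), Real.exp (-(2 * (r / n : ℝ))) := by rw [prod_const]
    _ ≤ _ := Finset.prod_le_prod (fun q _ => (Real.exp_pos _).le) h1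

theorem VV_nonneg' {Z : ℕ → Finset ℕ} {a b : ℕ} (hZ : ∀ q : ℕ, q.Prime → (Z q).card < q) : 0 ≤ VV Z a b := by
  unfold VV
  apply prod_nonneg
  intro q hq
  have hq0 : (0 : ℝ) < q := by exact_mod_cast (Pr_prime hq).pos
  rw [sub_nonneg, div_le_one hq0]
  exact_mod_cast (hZ q (Pr_prime hq)).le

theorem VV_le_one {Z : ℕ → Finset ℕ} {a b : ℕ} (hZ : ∀ q : ℕ, q.Prime → (Z q).card < q) : VV Z a b ≤ 1 := by
  unfold VV
  apply prod_le_one
  · intro q hq
    have hq0 : (0 : ℝ) < q := by exact_mod_cast (Pr_prime hq).pos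
    rw [sub_nonneg, div_le_one hq0]
    exact_mod_cast (hZ q (Pr_prime hq)).le
  · intro q hq
    have : (0 : ℝ) ≤ ((Z q).card : ℝ) / q := by positivity
    linarith

/-- comparison with the product over the primes up to `n` -/
theorem VV_cmp {r C : ℕ} (hC : 1 ≤ C) {n Y : ℕ} (hn : 2 * r + 1 ≤ n) (hY : Y ≤ C * n) {Z : ℕ → Finset ℕ}
    (hZ : ∀ q : ℕ, q.Prime → (Z q).card ≤ r) (hZ2 : ∀ q : ℕ, q.Prime → (Z q).card < q) :
    Real.exp (-(2 * r * C : ℝ)) * VV Z 0 n ≤ VV Z 0 Y := by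
  have h0 : 0 ≤ VV Z 0 n := VV_nonneg' hZ2
  have h1 : n ≤ C * n := Nat.le_mul_of_pos_left _ hC
  calc Real.exp (-(2 * r * C : ℝ)) * VV Z 0 n ≤ VV Z n (C * n) * VV Z 0 n :=
        mul_le_mul_of_nonneg_right (VV_tail r C hn Z hZ) h0
    _ = VV Z 0 (C * n) := by rw [mul_comm, VV_split Z (Nat.zero_le _) h1]
    _ = VV Z 0 Y * VV Z Y (C * n) := by rw [VV_split Z (Nat.zero_le _) hY]
    _ ≤ VV Z 0 Y := mul_le_of_le_one_right (VV_nonneg' hZ2) (VV_le_one hZ2)

/-- the product of the local densities is a sieve product -/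
theorem Vn_eq {m : ℕ} (f : Fin m → MvPolynomial (Fin 2) ℤ) (n : ℕ) {s u : ℤ} (hs : s = 1 ∨ s = -1) :
    Vn f n = VV (Zc (PP f n) s u) 0 n := by
  unfold Vn VV
  apply prod_congr
  · ext q
    rw [Pr_mem, mem_filter, mem_Icc]
    constructor
    · rintro ⟨⟨a, b⟩, c⟩
      exact ⟨⟨c.pos, b⟩, c⟩
    · rintro ⟨⟨a, b⟩, c⟩
      exact ⟨⟨c.pos, b⟩, c⟩
  · intro q hq
    rw [Zc_card f n hs (Pr_prime hq).pos]

theorem Vn_low {m : ℕ} (f : Fin m → MvPolynomial (Fin 2) ℤ) : ∃ c : ℝ, 0 < c ∧ ∀ n : ℕ, 2 * DD f + 3 ≤ n →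
    NoFixed f n → c / Real.log n ^ (2 * DD f) ≤ Vn f n := by
  obtain ⟨c, hc, h⟩ := VV_low (DD f)
  refine ⟨c, hc, fun n hn hf => ?_⟩
  rw [Vn_eq f n (Or.inl rfl) (u := 0)]
  apply h n hn
  intro p hp
  have hpp := Pr_prime hp
  rw [Zc_card f n (Or.inl rfl) hpp.pos]
  refine ⟨nu_le hf hpp, nu_lt hf hpp, ?_⟩
  intro c hc
  unfold Zc at hc
  rw [mem_filter, mem_range] at hc
  exact hc.1

end Pool.Agent.Q56.LN
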