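import Pool.Agent.Y840.CI.Asy
import Pool.Agent.Q56.LN.VExt

/-!
# Sifted primes in residue classes and long intervals
-/

set_option autoImplicit false

namespace Pool.Agent.Q56.LN

open Finset Filter
open Pool.Agent.Y843.HS (Pr VV Pr_mem Pr_prime VV_split)
open Pool.Agent.Y843.HG (Z0 V1 V1_bounds V1_pos log_floor VV_low psb PSB fac1)
open Pool.Agent.TH423.SH (PS)

/-- the primes in long intervals -/
theorem primes_int (θ : ℝ) (hθ : 0 < θ) : ∃ X₀ : ℕ, ∀ X : ℕ, X₀ ≤ X → ∀ A B : ℕ, B ≤ X → θ * X ≤ (B : ℝ) - A →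
    1 / 5 * (((B : ℝ) - A) / Real.log X) ≤ (((Ioc A B).filter Nat.Prime).card : ℝ) := by
  classical
  obtain ⟨N₀, hN₀⟩ := Pool.Agent.Y840.CI.pnt_int (min (θ / 2) 1) (by positivity) (min_le_right _ _)
  have e1 : ∀ᶠ X : ℕ in atTop, (2 / θ + 1 : ℝ) ≤ (X : ℝ) ^ (1 / 2 : ℝ) :=
    ((tendsto_rpow_atTop (show (0 : ℝ) < 1 / 2 by norm_num)).comp
      tendsto_natCast_atTop_atTop).eventually (eventually_ge_atTop _)
  obtain ⟨X₁, h1⟩ := eventually_atTop.1 e1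
  refine ⟨(N₀ + 2) ^ 2 + X₁ + 1, ?_⟩
  intro X hX A B hBX hθX
  have hX1 : 1 ≤ X := by omega
  have hX0 : (0 : ℝ) < X := by exact_mod_cast hX1
  have h2 := h1 X (by omega)
  have hsN : N₀ + 2 ≤ Nat.sqrt X := by
    rw [Nat.le_sqrt']
    omega
  -- `2 √X ≤ θ X`
  have h3 : 2 * (Nat.sqrt X : ℝ) ≤ θ * X := by
    have h4 : (Nat.sqrt X : ℝ) ≤ (X : ℝ) ^ (1 / 2 : ℝ) := by
      rw [← Real.sqrt_eq_rpow]
      exact Real.nat_sqrt_le_real_sqrt
    have h5 : (X : ℝ) = (X : ℝ) ^ (1 / 2 : ℝ) * (X : ℝ) ^ (1 / 2 : ℝ) := by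
      rw [← Real.rpow_add hX0]
      norm_num
    have h6 : 2 / θ ≤ (X : ℝ) ^ (1 / 2 : ℝ) := by linarith
    rw [div_le_iff₀ hθ] at h6
    have h7 : 0 < (X : ℝ) ^ (1 / 2 : ℝ) := by positivity
    calc 2 * (Nat.sqrt X : ℝ) ≤ 2 * (X : ℝ) ^ (1 / 2 : ℝ) := by linarith
      _ ≤ ((X : ℝ) ^ (1 / 2 : ℝ) * θ) * (X : ℝ) ^ (1 / 2 : ℝ) := mul_le_mul_of_nonneg_right h6 h7.le
      _ = θ * ((X : ℝ) ^ (1 / 2 : ℝ) * (X : ℝ) ^ (1 / 2 : ℝ)) := by ring
      _ = θ * X := by rw [← h5]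
  have hθX0 : 0 < θ * (X : ℝ) := by positivity
  have hA0 : (0 : ℝ) ≤ A := Nat.cast_nonneg _
  set A' := max A (Nat.sqrt X) with hA'
  have hA'r : (A' : ℝ) = max (A : ℝ) (Nat.sqrt X) := by rw [hA']; push_cast; rfl
  have hBX' : (B : ℝ) ≤ X := by exact_mod_cast hBX
  have h8 : ((B : ℝ) - A) / 2 ≤ (B : ℝ) - A' := by
    rw [hA'r]
    rcases max_cases (A : ℝ) (Nat.sqrt X : ℝ) with ⟨e, _⟩ | ⟨e, _⟩ <;> rw [e] <;> linarith
  have h9 : A' ≤ B := by
    have : (A' : ℝ) ≤ B := by linarith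
    exact_mod_cast this
  have h10 : min (θ / 2) 1 * X ≤ (B : ℝ) - A' := by
    have : min (θ / 2) 1 * X ≤ θ / 2 * X := mul_le_mul_of_nonneg_right (min_le_left _ _) hX0.le
    linarith
  have h11 := (hN₀ (Nat.sqrt X) (by omega) X (Nat.sqrt_le' X) (Nat.lt_succ_sqrt' X) A' B
    (le_max_right _ _) h9 hBX h10).1
  have h12 : (Pool.Agent.Y843.CH.PNX A' B).card ≤ ((Ioc A B).filter Nat.Prime).card := by
    apply card_le_card
    unfold Pool.Agent.Y843.CH.PNX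
    intro p hp
    rw [mem_filter, mem_Ioc] at hp ⊢
    exact ⟨⟨lt_of_le_of_lt (le_max_left _ _) hp.1.1, hp.1.2⟩, hp.2⟩
  have h13 : ((Pool.Agent.Y843.CH.PNX A' B).card : ℝ) ≤ (((Ioc A B).filter Nat.Prime).card : ℝ) := by
    exact_mod_cast h12
  have hsX : Nat.sqrt X ≤ X := Nat.sqrt_le_self X
  have hl1 : 0 < Real.log (Nat.sqrt X : ℕ) := Real.log_pos (by exact_mod_cast (show 1 < Nat.sqrt X by omega))
  have hl2 : Real.log (Nat.sqrt X : ℕ) ≤ Real.log X :=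
    Real.log_le_log (by exact_mod_cast (show 0 < Nat.sqrt X by omega)) (by exact_mod_cast hsX)
  have hl3 : 0 < Real.log X := by linarith
  have hBA : 0 ≤ (B : ℝ) - A := by linarith
  calc 1 / 5 * (((B : ℝ) - A) / Real.log X) ≤ 4995 / 10000 * ((((B : ℝ) - A) / 2) / Real.log X) := by
        have : 0 ≤ ((B : ℝ) - A) / Real.log X := by positivity
        have e : (((B : ℝ) - A) / 2) / Real.log X = (((B : ℝ) - A) / Real.log X) / 2 := by ring
        rw [e]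
        linarith
    _ ≤ 4995 / 10000 * (((B : ℝ) - A') / Real.log (Nat.sqrt X : ℕ)) := by
        apply mul_le_mul_of_nonneg_left _ (by norm_num)
        apply div_le_div₀ (by linarith) h8 hl1 hl2
    _ ≤ _ := h11.trans h13

/-- the conditions on the classes for the primes that do not divide `m₀` -/
def AdmP (r m₀ Y : ℕ) (Om : ℕ → Finset ℕ) : Prop :=
  ∀ q ∈ PS m₀ Y, (Om q).card ≤ r ∧ (Om q).card + 1 < q ∧ 0 ∉ Om q ∧ ∀ c ∈ Om q, c < q

open Classical in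
/-- the sifted primes of a residue class -/
noncomputable def TP (m₀ a Y A B : ℕ) (Om : ℕ → Finset ℕ) : Finset ℕ :=
  (Ioc A B).filter (fun p => p.Prime ∧ p % m₀ = a % m₀ ∧ ∀ q ∈ PS m₀ Y, p % q ∉ Z0 Om q)

/-- the sieve product over the primes that do not divide `m₀` -/
noncomputable def WW (m₀ Y : ℕ) (Om : ℕ → Finset ℕ) : ℝ := ∏ q ∈ PS m₀ Y, (1 - ((Om q).card + 1 : ℝ) / q)

theorem PS_sub {m₀ Y : ℕ} {q : ℕ} (hq : q ∈ PS m₀ Y) : q.Prime ∧ ¬ q ∣ m₀ ∧ q ≤ Y := by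
  unfold PS at hq
  rw [mem_filter, mem_Icc] at hq
  exact ⟨hq.2.1, hq.2.2, hq.1.2⟩

theorem mem_PS {m₀ Y q : ℕ} : q ∈ PS m₀ Y ↔ q.Prime ∧ ¬ q ∣ m₀ ∧ q ≤ Y := by
  unfold PS
  rw [mem_filter, mem_Icc]
  constructor
  · rintro ⟨⟨_, a⟩, b, c⟩
    exact ⟨b, c, a⟩
  · rintro ⟨a, b, c⟩
    exact ⟨⟨a.one_lt.le, c⟩, a, b⟩

theorem card_Z0' {Om : ℕ → Finset ℕ} {q : ℕ} (h : 0 ∉ Om q) : (Z0 Om q).card = (Om q).card + 1 := by
  unfold Z0
  rw [card_insert_of_notMem h]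

theorem WW_low (r m₀ : ℕ) : ∃ c : ℝ, 0 < c ∧ ∀ Y : ℕ, 2 * (r + 1) + 3 ≤ Y → ∀ Om : ℕ → Finset ℕ, AdmP r m₀ Y Om →
    c / Real.log Y ^ (2 * (r + 1)) ≤ WW m₀ Y Om := by
  classical
  obtain ⟨c, hc, h⟩ := VV_low (r + 1)
  refine ⟨c, hc, fun Y hY Om hOm => ?_⟩
  have h1 := h Y hY (fun q => if q ∣ m₀ then ∅ else Z0 Om q) (by
    intro p hp
    obtain ⟨⟨_, h2⟩, h3⟩ := Pr_mem.1 hp
    by_cases h4 : p ∣ m₀
    · simp only [if_pos h4]
      simp [h3.pos]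
    · simp only [if_neg h4]
      obtain ⟨a1, a2, a3, a4⟩ := hOm p (mem_PS.2 ⟨h3, h4, h2⟩)
      rw [card_Z0' a3]
      refine ⟨by omega, a2, ?_⟩
      intro c hc
      unfold Z0 at hc
      rw [mem_insert] at hc
      rcases hc with rfl | hc
      · exact h3.pos
      · exact a4 c hc)
  refine h1.trans (le_of_eq ?_)
  unfold VV WW
  have hsub : PS m₀ Y ⊆ Pr 0 Y := by
    intro q hq
    obtain ⟨a, b, c⟩ := PS_sub hq
    exact Pr_mem.2 ⟨⟨a.pos, c⟩, a⟩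
  rw [← prod_subset hsub]
  · apply prod_congr rfl
    intro q hq
    simp only [if_neg (PS_sub hq).2.1]
    rw [card_Z0' (hOm q hq).2.2.1]
    push_cast
    rfl
  · intro q hq hq'
    obtain ⟨⟨_, h2⟩, h3⟩ := Pr_mem.1 hq
    have : q ∣ m₀ := by
      by_contra hcon
      exact hq' (mem_PS.2 ⟨h3, hcon, h2⟩)
    simp only [if_pos this]
    simp

/-- Mertens, for the primes that do not divide `m₀` -/
theorem merP (m₀ : ℕ) (hm₀ : 1 ≤ m₀) : ∃ C : ℝ, 0 < C ∧ ∀ Y : ℕ, 2 ≤ Y →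
    ∏ q ∈ PS m₀ Y, (1 - 1 / (q : ℝ)) ≤ C / Real.log Y := by
  classical
  obtain ⟨c, C, hc, hC, h⟩ := V1_bounds
  refine ⟨C * 2 ^ m₀, by positivity, fun Y hY => ?_⟩
  have hlY : 0 < Real.log Y := Real.log_pos (by exact_mod_cast (show 1 < Y by omega))
  have hsub : PS m₀ Y ⊆ Pr 0 Y := by
    intro q hq
    obtain ⟨a, b, c⟩ := PS_sub hq
    exact Pr_mem.2 ⟨⟨a.pos, c⟩, a⟩
  have h1 : V1 Y = (∏ q ∈ Pr 0 Y \ PS m₀ Y, (1 - 1 / (q : ℝ))) * ∏ q ∈ PS m₀ Y, (1 - 1 / (q : ℝ)) := by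
    unfold V1
    rw [prod_sdiff hsub]
  have h2 : (1 / 2 : ℝ) ^ m₀ ≤ ∏ q ∈ Pr 0 Y \ PS m₀ Y, (1 - 1 / (q : ℝ)) := by
    have h3 : (Pr 0 Y \ PS m₀ Y).card ≤ m₀ := by
      have h4 : Pr 0 Y \ PS m₀ Y ⊆ Ioc 0 m₀ := by
        intro q hq
        rw [Finset.mem_sdiff] at hq
        obtain ⟨⟨_, h2⟩, h3⟩ := Pr_mem.1 hq.1
        have h5 : q ∣ m₀ := by
          by_contra hcon
          exact hq.2 (mem_PS.2 ⟨h3, hcon, h2⟩)
        rw [mem_Ioc]
        exact ⟨h3.pos, Nat.le_of_dvd (by omega) h5⟩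
      have := card_le_card h4
      rwa [Nat.card_Ioc, Nat.sub_zero] at this
    calc (1 / 2 : ℝ) ^ m₀ ≤ (1 / 2) ^ (Pr 0 Y \ PS m₀ Y).card :=
          pow_le_pow_of_le_one (by norm_num) (by norm_num) h3
      _ = ∏ _q ∈ Pr 0 Y \ PS m₀ Y, (1 / 2 : ℝ) := by rw [prod_const]
      _ ≤ _ := by
          apply Finset.prod_le_prod (fun _ _ => by norm_num)
          intro q hq
          rw [Finset.mem_sdiff] at hq
          exact (fac1 (Pr_prime hq.1)).1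
  have h3 : 0 < ∏ q ∈ PS m₀ Y, (1 - 1 / (q : ℝ)) := prod_pos fun q hq => by
    have := (fac1 (PS_sub hq).1).1
    linarith
  have h4 := (h Y hY).2
  rw [h1] at h4
  have h5 : (1 / 2 : ℝ) ^ m₀ * ∏ q ∈ PS m₀ Y, (1 - 1 / (q : ℝ)) ≤ C / Real.log Y :=
    (mul_le_mul_of_nonneg_right h2 h3.le).trans h4
  calc ∏ q ∈ PS m₀ Y, (1 - 1 / (q : ℝ)) =
        2 ^ m₀ * ((1 / 2 : ℝ) ^ m₀ * ∏ q ∈ PS m₀ Y, (1 - 1 / (q : ℝ))) := by
        rw [← mul_assoc, ← mul_pow]; norm_num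
    _ ≤ 2 ^ m₀ * (C / Real.log Y) := mul_le_mul_of_nonneg_left h5 (by positivity)
    _ = _ := by ring

/-- **sifted primes in residue classes and long intervals**: lower bound -/
theorem pap (r : ℕ) : ∃ z t : ℕ, 1 ≤ t ∧ ∀ m₀ : ℕ, 1 ≤ m₀ → (∀ p : ℕ, p.Prime → p ≤ z → p ∣ m₀) →
    ∃ c : ℝ, 0 < c ∧ ∀ θ : ℝ, 0 < θ → ∃ X₀ : ℕ, ∀ X : ℕ, X₀ ≤ X →
      ∀ A B : ℕ, B ≤ X → θ * X ≤ (B : ℝ) - A → ∀ a : ℕ, a.Coprime m₀ → ∀ Om : ℕ → Finset ℕ,
      AdmP r m₀ ⌊(X : ℝ) ^ (1 / (t : ℝ))⌋₊ Om →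
      c * ((B : ℝ) - A) * WW m₀ ⌊(X : ℝ) ^ (1 / (t : ℝ))⌋₊ Om ≤
        ((TP m₀ a ⌊(X : ℝ) ^ (1 / (t : ℝ))⌋₊ A B Om).card : ℝ) := by
  classical
  obtain ⟨C, hC1, hC⟩ := psb Pool.Agent.TH423.SH.fll
  obtain ⟨s, hs⟩ : ∃ s, s = C * (r + 1) := ⟨_, rfl⟩
  have hs1 : 1 ≤ s := by rw [hs]; exact Nat.mul_pos hC1 (by omega)
  have hCs : 1 ≤ C * s := Nat.mul_pos hC1 hs1
  obtain ⟨t, ht⟩ : ∃ t, t = 6 * (C * s) + 1 := ⟨_, rfl⟩
  have ht1 : 1 ≤ t := by omega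
  have ht0 : (0 : ℝ) < t := by exact_mod_cast ht1
  refine ⟨s, t, ht1, fun m₀ hm₀ hz => ?_⟩
  obtain ⟨Bb, hBb⟩ : ∃ B, B = 2 * (r + 1) + 1 := ⟨_, rfl⟩
  obtain ⟨X₁, hX₁⟩ := hC r s m₀ Bb (le_of_eq hs.symm) hm₀ (fun p hp h => hz p hp (by rw [hs]; exact h))
  obtain ⟨cV, hcV, hV⟩ := WW_low r m₀
  obtain ⟨CM, hCM, hM⟩ := merP m₀ hm₀
  obtain ⟨X₃, hX₃⟩ := log_floor t ht1
  have hφ0 : (0 : ℝ) < m₀.totient := by exact_mod_cast Nat.totient_pos.2 hm₀
  obtain ⟨c2, hc2⟩ : ∃ c2 : ℝ, c2 = 1 / 2 * (1 / 5 * (1 / m₀.totient) * (1 / (2 * t * CM))) := ⟨_, rfl⟩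
  have hc20 : 0 < c2 := by rw [hc2]; positivity
  refine ⟨c2 / 2, by positivity, fun θ hθ => ?_⟩
  obtain ⟨X₂, hX₂⟩ := primes_int θ hθ
  obtain ⟨K, hK⟩ : ∃ K : ℝ, K = c2 / 2 * θ * cV := ⟨_, rfl⟩
  have hK0 : 0 < K := by rw [hK]; positivity
  have e1 : ∀ᶠ X : ℕ in atTop, (2 * (r + 1) + 4 + 1 / θ : ℝ) ≤ (X : ℝ) ^ (1 / (t : ℝ)) :=
    ((tendsto_rpow_atTop (show (0 : ℝ) < 1 / t by positivity)).comp
      tendsto_natCast_atTop_atTop).eventually (eventually_ge_atTop _)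
  have e2 : ∀ᶠ X : ℕ in atTop, ((2 ^ Bb + 2) / K + 1 + 2 * |Real.log θ| : ℝ) ≤ Real.log X :=
    (Real.tendsto_log_atTop.comp tendsto_natCast_atTop_atTop).eventually (eventually_ge_atTop _)
  have e3 := log_small (2 * Bb) 4 (by norm_num)
  have e4 : ∀ᶠ X : ℕ in atTop, ((2 ^ (3 * (C * s)) + X₁ + 2 : ℕ) : ℝ) / θ ≤ (X : ℝ) :=
    tendsto_natCast_atTop_atTop.eventually (eventually_ge_atTop _)
  obtain ⟨X₄, hX₄⟩ := eventually_atTop.1 ((e1.and e2).and (e3.and e4))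
  refine ⟨X₂ + X₃ + X₄ + 3, ?_⟩
  intro X hX A B hBX hθX a ha Om hOm
  obtain ⟨⟨g1, g2⟩, g3, g4⟩ := hX₄ X (by omega)
  obtain ⟨hY2, hlogY⟩ := hX₃ X (by omega)
  have hpi := hX₂ X (by omega) A B hBX hθX
  have hX3 : 3 ≤ X := by omega
  have hXr : (3 : ℝ) ≤ X := by exact_mod_cast hX3
  have hX0 : (0 : ℝ) < X := by linarith
  have hlX : 0 < Real.log X := Real.log_pos (by linarith)
  obtain ⟨w, hw⟩ : ∃ w : ℝ, w = (X : ℝ) ^ (1 / (t : ℝ)) := ⟨_, rfl⟩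
  rw [← hw] at g1 hY2 hlogY hOm ⊢
  obtain ⟨Y, hY⟩ : ∃ Y : ℕ, Y = ⌊w⌋₊ := ⟨_, rfl⟩
  rw [← hY] at hY2 hlogY hOm ⊢
  have hw0 : 0 ≤ w := by rw [hw]; positivity
  have hYw : (Y : ℝ) ≤ w := by rw [hY]; exact Nat.floor_le hw0
  have hθi : 0 < 1 / θ := by positivity
  have hY3 : 2 * (r + 1) + 3 ≤ Y := by
    rw [hY]
    apply Nat.le_floor
    push_cast
    linarith
  have hwt : w ^ t = X := by
    rw [hw, ← Real.rpow_natCast, ← Real.rpow_mul hX0.le, one_div, inv_mul_cancel₀ ht0.ne', Real.rpow_one]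
  have hw1 : 1 ≤ w := by
    have : (0 : ℝ) ≤ r := Nat.cast_nonneg r
    linarith
  have hw2 : w ^ 2 ≤ X := by
    rw [← hwt]
    exact pow_le_pow_right₀ hw1 (by omega)
  have hwX : w ≤ X := by nlinarith
  have hYX : Y ≤ X := by
    have : (Y : ℝ) ≤ X := hYw.trans hwX
    exact_mod_cast this
  -- the size of `B`
  have hA0 : (0 : ℝ) ≤ A := Nat.cast_nonneg A
  have hBθ : θ * X ≤ B := by linarith
  have hBbig : 2 ^ (3 * (C * s)) + X₁ + 2 ≤ B := by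
    rw [div_le_iff₀ hθ] at g4
    have : ((2 ^ (3 * (C * s)) + X₁ + 2 : ℕ) : ℝ) ≤ B := by linarith
    exact_mod_cast this
  have hpw : 0 < 2 ^ (3 * (C * s)) := by positivity
  have hAB : A ≤ B := by
    have h1 : 0 ≤ θ * X := by positivity
    have : (A : ℝ) ≤ B := by linarith
    exact_mod_cast this
  have hBX' : (B : ℝ) ≤ X := by exact_mod_cast hBX
  have hB0 : (0 : ℝ) < B := by exact_mod_cast (show 0 < B by omega)
  -- the level
  obtain ⟨J, _, hJ1, hJ2⟩ := Pool.Agent.Y843.HS.exists_cross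
    (P := fun J => ((2 ^ 2 ^ J) ^ (C * s)) ^ 3 ≤ B) (a := 0) (b := B) (Nat.zero_le _)
    (by
      refine le_trans (le_of_eq ?_) (show 2 ^ (3 * (C * s)) ≤ B by omega)
      rw [pow_zero, pow_one, ← pow_mul, mul_comm]) (by
      rw [not_le]
      calc B < 2 ^ B := Nat.lt_two_pow_self
        _ ≤ 2 ^ 2 ^ B := Nat.pow_le_pow_right (by norm_num) Nat.lt_two_pow_self.le
        _ = (2 ^ 2 ^ B) ^ 1 := (pow_one _).symm
        _ ≤ (2 ^ 2 ^ B) ^ (C * s * 3) := Nat.pow_le_pow_right (by positivity) (by omega)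
        _ = ((2 ^ 2 ^ B) ^ (C * s)) ^ 3 := by rw [pow_mul])
  rw [not_le] at hJ2
  obtain ⟨R, hR⟩ : ∃ R : ℕ, R = 2 ^ 2 ^ J := ⟨_, rfl⟩
  have hR0 : (0 : ℝ) < R := by exact_mod_cast (show 0 < R by rw [hR]; positivity)
  have hYR : Y ≤ R := by
    have h1 : (B : ℝ) < (R : ℝ) ^ (t - 1) := by
      have h2 : 2 ^ 2 ^ (J + 1) = R ^ 2 := by rw [hR, ← pow_mul, pow_succ]
      rw [h2, ← pow_mul, ← pow_mul] at hJ2
      have h3 : 2 * (C * s * 3) = t - 1 := by rw [ht]; omega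
      rw [h3] at hJ2
      exact_mod_cast hJ2
    have h2 : w < R := by
      by_contra hcon
      push Not at hcon
      have h3 : (R : ℝ) ^ (t - 1) ≤ w ^ (t - 1) := pow_le_pow_left₀ hR0.le hcon _
      have h4 : w ^ (t - 1) * w = X := by rw [← pow_succ, Nat.sub_add_cancel ht1, hwt]
      have h5 : θ * X < w ^ (t - 1) := by linarith
      have h6 : θ * X * w < w ^ (t - 1) * w := mul_lt_mul_of_pos_right h5 (by linarith)
      rw [h4] at h6
      have h7 : 1 ≤ θ * w := by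
        have h8 : 1 / θ ≤ w := by
          have : (0 : ℝ) ≤ r := Nat.cast_nonneg r
          linarith
        rw [div_le_iff₀ hθ] at h8
        linarith
      nlinarith
    have h3 : (Y : ℝ) ≤ R := by linarith
    exact_mod_cast h3
  set Om' : ℕ → Finset ℕ := fun p => if p ≤ Y then Om p else ∅ with hOm'
  have hOm'' : ∀ p ∈ PS m₀ R, (Om' p).card ≤ r ∧ 0 ∉ Om' p ∧ ∀ c ∈ Om' p, c < p := by
    intro p hp
    obtain ⟨p1, p2, p3⟩ := mem_PS.1 hp
    rw [hOm']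
    by_cases h : p ≤ Y
    · simp only [if_pos h]
      obtain ⟨h1, _, h3, h4⟩ := hOm p (mem_PS.2 ⟨p1, p2, h⟩)
      exact ⟨h1, h3, h4⟩
    · simp [if_neg h]
  have hmain := hX₁ A B J a (by omega) hAB hJ1 ha Om' (by rw [← hR]; exact hOm'')
  rw [← hR] at hmain
  -- the product
  obtain ⟨Pp, hPp⟩ : ∃ P : ℝ, P = ∏ p ∈ PS m₀ R, (1 - ((Om' p).card : ℝ) / ((p : ℝ) - 1)) := ⟨_, rfl⟩
  rw [← hPp] at hmain
  have e1 : Pp = ∏ p ∈ PS m₀ Y, (1 - ((Om p).card : ℝ) / ((p : ℝ) - 1)) := by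
    rw [hPp]
    have e2 : PS m₀ Y ⊆ PS m₀ R := by
      intro p hp
      rw [mem_PS] at hp ⊢
      exact ⟨hp.1, hp.2.1, by omega⟩
    rw [← prod_subset e2]
    · apply prod_congr rfl
      intro p hp
      rw [hOm']
      simp only [if_pos (mem_PS.1 hp).2.2]
    · intro p hp hp'
      rw [hOm']
      have : ¬ p ≤ Y := by
        intro h
        apply hp'
        rw [mem_PS] at hp ⊢
        exact ⟨hp.1, hp.2.1, h⟩
      simp [if_neg this]
  have e2 : Pp * ∏ p ∈ PS m₀ Y, (1 - 1 / (p : ℝ)) = WW m₀ Y Om := by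
    rw [e1]
    unfold WW
    rw [← prod_mul_distrib]
    apply prod_congr rfl
    intro p hp
    have hp2 : (2 : ℝ) ≤ p := by exact_mod_cast (mem_PS.1 hp).1.two_le
    have h1 : (p : ℝ) - 1 ≠ 0 := by linarith
    have h2 : (p : ℝ) ≠ 0 := by linarith
    field_simp
    ring
  have hPp0 : 0 ≤ Pp := by
    rw [e1]
    apply prod_nonneg
    intro p hp
    have hp2 : (2 : ℝ) ≤ p := by exact_mod_cast (mem_PS.1 hp).1.two_le
    rw [sub_nonneg, div_le_one (by linarith)]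
    have h1 := (hOm p hp).2.1
    have h2 : ((Om p).card : ℝ) + 1 < p := by exact_mod_cast h1
    linarith
  have hlY0 : 0 < Real.log Y := Real.log_pos (by exact_mod_cast (show 1 < Y by omega))
  have hPW : WW m₀ Y Om * (Real.log X / (2 * t * CM)) ≤ Pp := by
    have h1 : WW m₀ Y Om ≤ Pp * (CM / Real.log Y) := by
      rw [← e2]
      exact mul_le_mul_of_nonneg_left (hM Y hY2) hPp0
    have hW0 : 0 ≤ WW m₀ Y Om := by
      rw [← e2]
      apply mul_nonneg hPp0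
      apply prod_nonneg
      intro q hq
      have := (fac1 (PS_sub hq).1).1
      linarith
    calc WW m₀ Y Om * (Real.log X / (2 * t * CM)) = WW m₀ Y Om * ((Real.log X / (2 * t)) / CM) := by
          congr 1; field_simp
      _ ≤ WW m₀ Y Om * (Real.log Y / CM) := by
          apply mul_le_mul_of_nonneg_left _ hW0
          exact div_le_div_of_nonneg_right hlogY hCM.le
      _ ≤ Pp * (CM / Real.log Y) * (Real.log Y / CM) := mul_le_mul_of_nonneg_right h1 (by positivity)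
      _ = Pp := by field_simp
  have hWlow := hV Y hY3 Om hOm
  have hW0 : 0 < WW m₀ Y Om := lt_of_lt_of_le (by positivity) hWlow
  -- the main term
  have hBA0 : 0 ≤ (B : ℝ) - A := le_trans (by positivity) hθX
  have hmt : 2 * (c2 * ((B : ℝ) - A) * WW m₀ Y Om) ≤ (((Ioc A B).filter Nat.Prime).card : ℝ) / m₀.totient * Pp := by
    have h3 : 1 / 5 * (((B : ℝ) - A) / Real.log X) / m₀.totient * (WW m₀ Y Om * (Real.log X / (2 * t * CM))) ≤
        (((Ioc A B).filter Nat.Prime).card : ℝ) / m₀.totient * Pp := by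
      apply mul_le_mul _ hPW (by positivity) (by positivity)
      exact div_le_div_of_nonneg_right hpi hφ0.le
    refine le_trans (le_of_eq ?_) h3
    rw [hc2]
    field_simp
  -- the set
  set F := (Ioc A B).filter (fun q => q.Prime ∧ q % m₀ = a % m₀ ∧ ∀ p ∈ PS m₀ R, q % p ∉ Om' p) with hF
  have hFS : F ⊆ TP m₀ a Y A B Om ∪ Icc 0 Y := by
    intro q hq
    rw [hF, mem_filter] at hq
    obtain ⟨h1, h2, h3, h4⟩ := hq
    rw [mem_union, mem_Icc]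
    rcases le_or_gt q Y with h5 | h5
    · right
      exact ⟨Nat.zero_le _, h5⟩
    · left
      unfold TP
      rw [mem_filter]
      refine ⟨h1, h2, h3, ?_⟩
      intro p hp hcon
      obtain ⟨p1, p2, p3⟩ := mem_PS.1 hp
      unfold Z0 at hcon
      rw [mem_insert] at hcon
      rcases hcon with h6 | h6
      · have h7 := (Nat.prime_dvd_prime_iff_eq p1 h2).1 (Nat.dvd_of_mod_eq_zero h6)
        omega
      · have h8 : p ∈ PS m₀ R := mem_PS.2 ⟨p1, p2, by omega⟩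
        apply h4 p h8
        rw [hOm']
        simp only [if_pos p3]
        exact h6
  have hFc : (F.card : ℝ) ≤ (TP m₀ a Y A B Om).card + (w + 1) := by
    have h1 := (card_le_card hFS).trans (card_union_le _ _)
    rw [Nat.card_Icc] at h1
    have h3 : (F.card : ℝ) ≤ (((TP m₀ a Y A B Om).card + (Y + 1) : ℕ) : ℝ) := by
      have : F.card ≤ (TP m₀ a Y A B Om).card + (Y + 1) := by omega
      exact_mod_cast this
    push_cast at h3
    linarith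
  have hF1 : (((Ioc A B).filter Nat.Prime).card : ℝ) / m₀.totient * Pp / 2 - B / Real.log B ^ Bb ≤
      F.card := by
    have hmain' : |(F.card : ℝ) - (((Ioc A B).filter Nat.Prime).card : ℝ) / m₀.totient * Pp| ≤
        (1 / 2 : ℝ) ^ s * ((((Ioc A B).filter Nat.Prime).card : ℝ) / m₀.totient * Pp) +
          B / Real.log B ^ Bb := by
      rw [hF]
      convert hmain
    have h1 := (abs_le.1 hmain').1
    have h2 : (0 : ℝ) ≤ (((Ioc A B).filter Nat.Prime).card : ℝ) / m₀.totient * Pp := by positivity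
    have h3 : (1 / 2 : ℝ) ^ s ≤ 1 / 2 := by
      calc (1 / 2 : ℝ) ^ s ≤ (1 / 2) ^ 1 := pow_le_pow_of_le_one (by norm_num) (by norm_num) hs1
        _ = 1 / 2 := pow_one _
    have h4 := mul_le_mul_of_nonneg_right h3 h2
    linarith
  -- the errors
  have hlB : Real.log X / 2 ≤ Real.log B := by
    have h1 : Real.log (θ * X) ≤ Real.log B := Real.log_le_log (by positivity) hBθ
    rw [Real.log_mul hθ.ne' hX0.ne'] at h1
    have h2 := neg_abs_le (Real.log θ)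
    have h3 : 0 ≤ ((2 ^ Bb + 2) / K : ℝ) := by positivity
    linarith
  have hBerr : (B : ℝ) / Real.log B ^ Bb ≤ 2 ^ Bb * (X / Real.log X ^ Bb) := by
    calc (B : ℝ) / Real.log B ^ Bb ≤ X / (Real.log X / 2) ^ Bb := by
          apply div_le_div₀ hX0.le hBX' (by positivity)
          exact pow_le_pow_left₀ (by positivity) hlB _
      _ = 2 ^ Bb * (X / Real.log X ^ Bb) := by
          rw [div_pow]; field_simp
  have hYerr : w + 1 ≤ 2 * (X / Real.log X ^ Bb) := by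
    have h1 : w ≤ Real.sqrt X := Real.le_sqrt_of_sq_le hw2
    have h2 : 2 * Real.log X ^ Bb ≤ Real.sqrt X := by
      apply Real.le_sqrt_of_sq_le
      calc (2 * Real.log X ^ Bb) ^ 2 = 4 * Real.log X ^ (2 * Bb) := by ring
        _ ≤ X := g3
    have h3 : Real.sqrt X * Real.sqrt X = X := Real.mul_self_sqrt hX0.le
    have h4 : 0 < Real.log X ^ Bb := by positivity
    rw [mul_div_assoc', le_div_iff₀ h4]
    have h5 : 0 < Real.sqrt X := Real.sqrt_pos.2 hX0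
    have h6 : w + 1 ≤ 2 * Real.sqrt X := by linarith
    calc (w + 1) * Real.log X ^ Bb ≤ (2 * Real.sqrt X) * Real.log X ^ Bb := mul_le_mul_of_nonneg_right h6 h4.le
      _ = Real.sqrt X * (2 * Real.log X ^ Bb) := by ring
      _ ≤ Real.sqrt X * Real.sqrt X := mul_le_mul_of_nonneg_left h2 h5.le
      _ ≤ 2 * X := by rw [h3]; linarith
  have hlow : 2 ^ Bb * (X / Real.log X ^ Bb) + 2 * (X / Real.log X ^ Bb) ≤
      c2 / 2 * ((B : ℝ) - A) * WW m₀ Y Om := by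
    have h1 : (2 ^ Bb + 2) ≤ K * Real.log X := by
      have h2 : (2 ^ Bb + 2) / K ≤ Real.log X := by
        have := abs_nonneg (Real.log θ)
        linarith
      rw [div_le_iff₀ hK0] at h2
      linarith
    have h2 : K * (X / Real.log X ^ (2 * (r + 1))) ≤ c2 / 2 * ((B : ℝ) - A) * WW m₀ Y Om := by
      have h3 : cV / Real.log X ^ (2 * (r + 1)) ≤ WW m₀ Y Om := by
        refine le_trans ?_ hWlow
        apply div_le_div_of_nonneg_left hcV.le (by positivity)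
        apply pow_le_pow_left₀ hlY0.le
        exact Real.log_le_log (by exact_mod_cast (show 0 < Y by omega)) (by exact_mod_cast hYX)
      calc K * (X / Real.log X ^ (2 * (r + 1))) = c2 / 2 * (θ * X) * (cV / Real.log X ^ (2 * (r + 1))) := by
            rw [hK]; ring
        _ ≤ c2 / 2 * ((B : ℝ) - A) * WW m₀ Y Om := by
            apply mul_le_mul _ h3 (by positivity) (by positivity)
            exact mul_le_mul_of_nonneg_left hθX (by positivity)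
    refine le_trans ?_ h2
    have h3 : (X : ℝ) / Real.log X ^ (2 * (r + 1)) = Real.log X * (X / Real.log X ^ Bb) := by
      rw [hBb, pow_succ]
      field_simp
    rw [h3]
    have h4 : 0 < (X : ℝ) / Real.log X ^ Bb := by positivity
    calc 2 ^ Bb * (X / Real.log X ^ Bb) + 2 * (X / Real.log X ^ Bb) = (2 ^ Bb + 2) * (X / Real.log X ^ Bb) := by ring
      _ ≤ (K * Real.log X) * (X / Real.log X ^ Bb) := mul_le_mul_of_nonneg_right h1 h4.le
      _ = _ := by ring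
  linarith

end Pool.Agent.Q56.LN
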