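import Pool.Agent.Q56.LN.Defs

/-!
# Polynomials on the line `x + y = n`
-/

set_option autoImplicit false

namespace Pool.Agent.Q56.LN

open Finset

/-- the restriction to `x = s t + u`, `y = n - x` -/
noncomputable def sub1 (s u n : ℤ) (f : MvPolynomial (Fin 2) ℤ) : Polynomial ℤ :=
  MvPolynomial.aeval ![Polynomial.C s * Polynomial.X + Polynomial.C u,
    Polynomial.C (n - u) - Polynomial.C s * Polynomial.X] f

theorem aeval_eval (f : MvPolynomial (Fin 2) ℤ) (g : Fin 2 → Polynomial ℤ) (t : ℤ) :
    (MvPolynomial.aeval g f).eval t = MvPolynomial.eval (fun i => (g i).eval t) f := by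
  induction f using MvPolynomial.induction_on with
  | C a =>
    rw [MvPolynomial.aeval_C, MvPolynomial.eval_C, Polynomial.algebraMap_apply]
    simp
  | add p q hp hq => rw [map_add, Polynomial.eval_add, hp, hq, map_add]
  | mul_X p i hp => rw [map_mul, Polynomial.eval_mul, hp, map_mul, MvPolynomial.aeval_X, MvPolynomial.eval_X]

theorem sub1_eval (s u n : ℤ) (f : MvPolynomial (Fin 2) ℤ) (t : ℤ) :
    (sub1 s u n f).eval t = ev f (s * t + u) (n - (s * t + u)) := by
  unfold sub1 ev
  rw [aeval_eval]
  congr 1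
  congr 1
  funext i
  fin_cases i
  · simp
  · simp
    ring

theorem sub1_deg (s u n : ℤ) (f : MvPolynomial (Fin 2) ℤ) : (sub1 s u n f).natDegree ≤ f.totalDegree := by
  unfold sub1
  have h := MvPolynomial.aeval_natDegree_le f le_rfl
    ![Polynomial.C s * Polynomial.X + Polynomial.C u, Polynomial.C (n - u) - Polynomial.C s * Polynomial.X]
    (n := 1) (by
      intro i
      fin_cases i
      · simp only [Fin.zero_eta, Fin.isValue, Matrix.cons_val_zero]
        refine (Polynomial.natDegree_add_le _ _).trans ?_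
        rw [Polynomial.natDegree_C]
        have := (Polynomial.natDegree_C_mul_le s Polynomial.X).trans Polynomial.natDegree_X_le
        omega
      · simp only [Fin.mk_one, Fin.isValue, Matrix.cons_val_one, Matrix.cons_val_fin_one]
        refine (Polynomial.natDegree_sub_le _ _).trans ?_
        rw [Polynomial.natDegree_C]
        have := (Polynomial.natDegree_C_mul_le s Polynomial.X).trans Polynomial.natDegree_X_le
        omega)
  omega

theorem size (f : MvPolynomial (Fin 2) ℤ) : ∃ C d : ℕ, ∀ (x y : ℤ) (X : ℕ), 1 ≤ X → |x| ≤ X → |y| ≤ X →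
    |ev f x y| ≤ C * (X : ℤ) ^ d := by
  unfold ev
  induction f using MvPolynomial.induction_on with
  | C a =>
    refine ⟨a.natAbs, 0, fun x y X _ _ _ => ?_⟩
    rw [MvPolynomial.eval_C]
    simp
  | add p q hp hq =>
    obtain ⟨C1, d1, h1⟩ := hp
    obtain ⟨C2, d2, h2⟩ := hq
    refine ⟨C1 + C2, d1 + d2, fun x y X hX hx hy => ?_⟩
    have hX' : (1 : ℤ) ≤ X := by exact_mod_cast hX
    rw [map_add]
    have e1 := h1 x y X hX hx hy
    have e2 := h2 x y X hX hx hy
    have p1 : (X : ℤ) ^ d1 ≤ (X : ℤ) ^ (d1 + d2) := pow_le_pow_right₀ hX' (by omega)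
    have p2 : (X : ℤ) ^ d2 ≤ (X : ℤ) ^ (d1 + d2) := pow_le_pow_right₀ hX' (by omega)
    have c1 : (0 : ℤ) ≤ C1 := Int.natCast_nonneg _
    have c2 : (0 : ℤ) ≤ C2 := Int.natCast_nonneg _
    calc |MvPolynomial.eval ![x, y] p + MvPolynomial.eval ![x, y] q|
        ≤ |MvPolynomial.eval ![x, y] p| + |MvPolynomial.eval ![x, y] q| := abs_add_le _ _
      _ ≤ C1 * (X : ℤ) ^ d1 + C2 * (X : ℤ) ^ d2 := add_le_add e1 e2
      _ ≤ C1 * (X : ℤ) ^ (d1 + d2) + C2 * (X : ℤ) ^ (d1 + d2) :=
          add_le_add (mul_le_mul_of_nonneg_left p1 c1) (mul_le_mul_of_nonneg_left p2 c2)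
      _ = ((C1 + C2 : ℕ) : ℤ) * (X : ℤ) ^ (d1 + d2) := by push_cast; ring
  | mul_X p i hp =>
    obtain ⟨C1, d1, h1⟩ := hp
    refine ⟨C1, d1 + 1, fun x y X hX hx hy => ?_⟩
    rw [map_mul, MvPolynomial.eval_X, abs_mul]
    have e1 := h1 x y X hX hx hy
    have hi : |(![x, y] : Fin 2 → ℤ) i| ≤ X := by
      fin_cases i
      · simpa using hx
      · simpa using hy
    calc |MvPolynomial.eval ![x, y] p| * |(![x, y] : Fin 2 → ℤ) i| ≤ (C1 * (X : ℤ) ^ d1) * X :=
          mul_le_mul e1 hi (abs_nonneg _) ((abs_nonneg _).trans e1)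
      _ = C1 * (X : ℤ) ^ (d1 + 1) := by ring

/-- few roots modulo a prime -/
theorem roots_mod {q : ℕ} (hq : q.Prime) (P : Polynomial ℤ) (h : ∃ c : ℤ, ¬ (q : ℤ) ∣ P.eval c) :
    ((range q).filter (fun c : ℕ => (q : ℤ) ∣ P.eval (c : ℤ))).card ≤ P.natDegree := by
  classical
  have := Fact.mk hq
  set P' := P.map (Int.castRingHom (ZMod q)) with hP'
  have hev : ∀ c : ℤ, P'.eval (c : ZMod q) = ((P.eval c : ℤ) : ZMod q) := by
    intro c
    rw [hP', Polynomial.eval_map, Polynomial.eval₂_at_intCast]
    simp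
  have hne : P' ≠ 0 := by
    obtain ⟨c, hc⟩ := h
    intro h0
    apply hc
    have := hev c
    rw [h0, Polynomial.eval_zero] at this
    exact (ZMod.intCast_zmod_eq_zero_iff_dvd _ _).1 this.symm
  calc ((range q).filter (fun c : ℕ => (q : ℤ) ∣ P.eval (c : ℤ))).card ≤ P'.roots.toFinset.card := by
        apply card_le_card_of_injOn (fun c : ℕ => (c : ZMod q))
        · intro c hc
          rw [mem_coe, mem_filter] at hc
          rw [mem_coe, Multiset.mem_toFinset, Polynomial.mem_roots hne, Polynomial.IsRoot]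
          have := hev (c : ℤ)
          rw [Int.cast_natCast] at this
          rw [this]
          exact (ZMod.intCast_zmod_eq_zero_iff_dvd _ _).2 hc.2
        · intro c hc d hd hcd
          rw [mem_coe, mem_filter, mem_range] at hc hd
          have h1 := (ZMod.natCast_eq_natCast_iff _ _ _).1 hcd
          exact Nat.ModEq.eq_of_lt_of_lt h1 hc.1 hd.1
    _ ≤ Multiset.card P'.roots := Multiset.toFinset_card_le _
    _ ≤ P'.natDegree := Polynomial.card_roots' _
    _ ≤ P.natDegree := Polynomial.natDegree_map_le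

/-- few values `1`, `-1` -/
theorem few_unit (P : Polynomial ℤ) (h1 : P ≠ Polynomial.C 1) (h2 : P ≠ Polynomial.C (-1)) (S : Finset ℤ) :
    (S.filter (fun t => (P.eval t).natAbs = 1)).card ≤ 2 * P.natDegree := by
  classical
  have key : ∀ z : ℤ, P ≠ Polynomial.C z → (S.filter (fun t => P.eval t = z)).card ≤ P.natDegree := by
    intro z hz
    have hne : P - Polynomial.C z ≠ 0 := sub_ne_zero.2 hz
    calc (S.filter (fun t => P.eval t = z)).card ≤ (P - Polynomial.C z).roots.toFinset.card := by
          apply card_le_card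
          intro t ht
          rw [mem_filter] at ht
          rw [Multiset.mem_toFinset, Polynomial.mem_roots hne, Polynomial.IsRoot, Polynomial.eval_sub,
            Polynomial.eval_C, ht.2, sub_self]
      _ ≤ Multiset.card (P - Polynomial.C z).roots := Multiset.toFinset_card_le _
      _ ≤ (P - Polynomial.C z).natDegree := Polynomial.card_roots' _
      _ = P.natDegree := Polynomial.natDegree_sub_C
  have hsub : S.filter (fun t => (P.eval t).natAbs = 1) ⊆
      S.filter (fun t => P.eval t = 1) ∪ S.filter (fun t => P.eval t = -1) := by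
    intro t ht
    rw [mem_filter] at ht
    rw [mem_union, mem_filter, mem_filter]
    rcases Int.natAbs_eq_iff.1 ht.2 with h | h
    · left; exact ⟨ht.1, by simpa using h⟩
    · right; exact ⟨ht.1, by simpa using h⟩
  refine (card_le_card hsub).trans ((card_union_le _ _).trans ?_)
  have := key 1 h1
  have := key (-1) h2
  omega

/-- a polynomial which is not constant is not equal to a given constant on `x + y = n`, `n` large -/
theorem non_const (f : MvPolynomial (Fin 2) ℤ) (z : ℤ) (hf : f ≠ MvPolynomial.C z) :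
    ∃ n₀ : ℕ, ∀ n : ℕ, n₀ ≤ n → sub1 1 0 n f ≠ Polynomial.C z := by
  classical
  by_contra hcon
  push Not at hcon
  apply hf
  apply MvPolynomial.funext
  intro v
  have hx : ∀ x N : ℤ, ev f x (N - x) = z := by
    intro x N
    set hx := MvPolynomial.aeval ![Polynomial.C x, Polynomial.X - Polynomial.C x] f with hhx
    have he : ∀ N : ℤ, hx.eval N = ev f x (N - x) := by
      intro N
      rw [hhx, aeval_eval]
      unfold ev
      congr 1
      congr 1
      funext i
      fin_cases i <;> simp
    have hz : hx - Polynomial.C z = 0 := by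
      by_contra hne
      set b := (hx - Polynomial.C z).roots.toFinset.sup (fun t => t.natAbs) with hb
      obtain ⟨n, hn, hn2⟩ := hcon (b + 1)
      have h1 : hx.eval (n : ℤ) = z := by
        rw [he]
        have h2 : (sub1 1 0 n f).eval x = z := by rw [hn2, Polynomial.eval_C]
        rw [sub1_eval] at h2
        simpa using h2
      have h3 : (n : ℤ) ∈ (hx - Polynomial.C z).roots.toFinset := by
        rw [Multiset.mem_toFinset, Polynomial.mem_roots hne, Polynomial.IsRoot, Polynomial.eval_sub,
          Polynomial.eval_C, h1, sub_self]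
      have h4 := le_sup (f := fun t : ℤ => t.natAbs) h3
      rw [← hb] at h4
      simp only [Int.natAbs_natCast] at h4
      omega
    rw [← he, sub_eq_zero.1 hz, Polynomial.eval_C]
  have h1 := hx (v 0) (v 0 + v 1)
  rw [MvPolynomial.eval_C]
  unfold ev at h1
  rw [show v 0 + v 1 - v 0 = v 1 by ring] at h1
  rw [← h1]
  congr 1
  congr 1
  funext i
  fin_cases i <;> rfl

end Pool.Agent.Q56.LN
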